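import Pool.Agent.Helper755.WH.Defs

set_option autoImplicit false

namespace Pool.Agent.Helper755.WH

open Filter Topology Set

/-! ### TARGET (prove; put helper lemmas here, names ending in the job number) -/

theorem exists_lim_9882 {ι : Type} (U : Ultrafilter ι) (g : ι → ℝ) (C : ℝ) (hg : ∀ i, |g i| ≤ C) :
    ∃ t : ℝ, Tendsto g U (𝓝 t) ∧ |t| ≤ C := by
  obtain ⟨t, ht, h⟩ := (isCompact_Icc (a := -C) (b := C)).ultrafilter_le_nhds (U.map g) (by
    rw [le_principal_iff, Ultrafilter.mem_coe, Ultrafilter.mem_map]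
    exact Filter.univ_mem' fun i => abs_le.mp (hg i))
  exact ⟨t, h, abs_le.mpr ht⟩

section
variable {X : Type} [NormedAddCommGroup X] [NormedSpace ℝ X]

theorem ECW.zero : ECW (0 : ℝ) ({0} : Set X) := by
  intro ι U k hk
  refine ⟨0, fun _ => 0, fun f => ⟨?_, by simp⟩⟩
  have : (fun i => f (k i)) = fun _ => 0 := by
    funext i
    have h1 : k i = 0 := hk i
    rw [h1, map_zero]
  rw [this]
  exact tendsto_const_nhds

end

section
variable {X : Type} [NormedAddCommGroup X] [NormedSpace ℝ X]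

theorem ECW.add {ε₁ ε₂ : ℝ} {H₁ H₂ : Set X} (h₁ : ECW ε₁ H₁) (h₂ : ECW ε₂ H₂) :
    ECW (ε₁ + ε₂) {x : X | ∃ a ∈ H₁, ∃ b ∈ H₂, x = a + b} := by
  intro ι U k hk
  choose a ha b hb hab using hk
  obtain ⟨z1, L1, h1⟩ := h₁ ι U a ha
  obtain ⟨z2, L2, h2⟩ := h₂ ι U b hb
  refine ⟨z1 + z2, fun f => L1 f + L2 f, fun f => ⟨?_, ?_⟩⟩
  · simp only [hab, map_add]
    exact (h1 f).1.add (h2 f).1
  · have h3 := (h1 f).2
    have h4 := (h2 f).2
    calc |L1 f + L2 f - f (z1 + z2)| = |(L1 f - f z1) + (L2 f - f z2)| := by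
          rw [map_add]
          congr 1
          ring
      _ ≤ |L1 f - f z1| + |L2 f - f z2| := abs_add_le _ _
      _ ≤ ε₁ * ‖f‖ + ε₂ * ‖f‖ := add_le_add h3 h4
      _ = (ε₁ + ε₂) * ‖f‖ := by ring

end

section
variable {X : Type} [NormedAddCommGroup X] [NormedSpace ℝ X]

theorem ECW.smul_bdd {ε N : ℝ} (hN : 0 ≤ N) {H : Set X} (h : ECW ε H) :
    ECW (N * ε) {x : X | ∃ t : ℝ, |t| ≤ N ∧ ∃ y ∈ H, x = t • y} := by
  intro ι U k hk
  choose t ht y hy hty using hk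
  obtain ⟨z, L, h1⟩ := h ι U y hy
  obtain ⟨s, hs, hsN⟩ := exists_lim_9882 U t N ht
  refine ⟨s • z, fun f => s * L f, fun f => ⟨?_, ?_⟩⟩
  · simp only [hty, map_smul, smul_eq_mul]
    exact hs.mul (h1 f).1
  · rw [map_smul, smul_eq_mul, ← mul_sub, abs_mul, mul_assoc]
    exact mul_le_mul hsN (h1 f).2 (abs_nonneg _) hN

end

section
variable {X : Type} [NormedAddCommGroup X] [NormedSpace ℝ X]

theorem ECW.thicken {ε δ : ℝ} {H : Set X} (h : ECW ε H) :
    ECW (ε + δ) {x : X | ∃ y ∈ H, ‖x - y‖ ≤ δ} := by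
  intro ι U k hk
  choose y hy hky using hk
  obtain ⟨z, L, h1⟩ := h ι U y hy
  have h2 : ∀ f : StrongDual ℝ X, ∃ t : ℝ, Tendsto (fun i => f (k i - y i)) U (𝓝 t) ∧
      |t| ≤ δ * ‖f‖ := by
    intro f
    refine exists_lim_9882 U _ _ fun i => ?_
    have h3 := f.le_opNorm (k i - y i)
    rw [Real.norm_eq_abs] at h3
    refine h3.trans ?_
    rw [mul_comm]
    exact mul_le_mul_of_nonneg_right (hky i) (norm_nonneg _)
  choose M hM hMle using h2
  refine ⟨z, fun f => L f + M f, fun f => ⟨?_, ?_⟩⟩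
  · have h3 := (h1 f).1.add (hM f)
    refine h3.congr fun i => ?_
    rw [map_sub]
    ring
  · calc |L f + M f - f z| = |(L f - f z) + M f| := by congr 1; ring
      _ ≤ |L f - f z| + |M f| := abs_add_le _ _
      _ ≤ ε * ‖f‖ + δ * ‖f‖ := add_le_add (h1 f).2 (hMle f)
      _ = (ε + δ) * ‖f‖ := by ring

end

section
variable {X : Type} [NormedAddCommGroup X] [NormedSpace ℝ X]

theorem ECW.of_compact {K : Set X} (hK : IsCompact (toWeakSpace ℝ X '' K)) : ECW 0 K := by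
  intro ι U k hk
  have h1 := hK.ultrafilter_le_nhds (U.map fun j => toWeakSpace ℝ X (k j)) (by
    rw [le_principal_iff, Ultrafilter.mem_coe, Ultrafilter.mem_map]
    exact Filter.univ_mem' fun j => ⟨k j, hk j, rfl⟩)
  obtain ⟨_, ⟨z, _, rfl⟩, hz⟩ := h1
  refine ⟨z, fun f => f z, fun f => ⟨?_, by simp⟩⟩
  have h2 : Continuous fun w : WeakSpace ℝ X => f ((toWeakSpace ℝ X).symm w) :=
    WeakBilin.eval_continuous _ f
  exact (h2.tendsto _).comp hz

end

end Pool.Agent.Helper755.WH
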