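import Pool.Agent.Helper755.WH.A

set_option autoImplicit false

namespace Pool.Agent.Helper755.WH

open Filter Topology Set

/-! ### TARGET (prove; put helper lemmas here, names ending in the job number) -/

section
variable {X : Type} [NormedAddCommGroup X] [NormedSpace ℝ X]

theorem CS.add {M₁ M₂ : Set X} (h₁ : CS M₁) (h₂ : CS M₂) :
    CS {x : X | ∃ a ∈ M₁, ∃ b ∈ M₂, x = a + b} := by
  intro ε hε
  obtain ⟨H₁, a1, a2⟩ := h₁ (ε / 2) (by positivity)
  obtain ⟨H₂, b1, b2⟩ := h₂ (ε / 2) (by positivity)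
  refine ⟨fun n => {x : X | ∃ a ∈ H₁ (Nat.unpair n).1, ∃ b ∈ H₂ (Nat.unpair n).2, x = a + b},
    fun n => ?_, ?_⟩
  · have := ECW.add (a1 (Nat.unpair n).1) (b1 (Nat.unpair n).2)
    rwa [add_halves] at this
  · rintro x ⟨a, ha, b, hb, rfl⟩
    obtain ⟨i, hi⟩ := mem_iUnion.1 (a2 ha)
    obtain ⟨j, hj⟩ := mem_iUnion.1 (b2 hb)
    refine mem_iUnion.2 ⟨Nat.pair i j, a, ?_, b, ?_, rfl⟩
    · rw [Nat.unpair_pair]; exact hi
    · rw [Nat.unpair_pair]; exact hj

end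

section
variable {X : Type} [NormedAddCommGroup X] [NormedSpace ℝ X]

theorem CS.smul_all {M : Set X} (h : CS M) : CS {x : X | ∃ t : ℝ, ∃ y ∈ M, x = t • y} := by
  intro ε hε
  have h' : ∀ N : ℕ, ∃ H : ℕ → Set X, (∀ n, ECW (ε / ((N : ℝ) + 1)) (H n)) ∧ M ⊆ ⋃ n, H n :=
    fun N => h _ (by positivity)
  choose H a1 a2 using h'
  refine ⟨fun n => {x : X | ∃ t : ℝ, |t| ≤ ((Nat.unpair n).1 : ℝ) + 1 ∧
    ∃ y ∈ H (Nat.unpair n).1 (Nat.unpair n).2, x = t • y}, fun n => ?_, ?_⟩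
  · have := ECW.smul_bdd (N := ((Nat.unpair n).1 : ℝ) + 1) (by positivity)
      (a1 (Nat.unpair n).1 (Nat.unpair n).2)
    rwa [mul_div_cancel₀ _ (by positivity)] at this
  · rintro x ⟨t, y, hy, rfl⟩
    obtain ⟨N, hN⟩ := exists_nat_ge |t|
    obtain ⟨j, hj⟩ := mem_iUnion.1 (a2 N hy)
    refine mem_iUnion.2 ⟨Nat.pair N j, t, ?_, y, ?_, rfl⟩
    · rw [Nat.unpair_pair]; linarith
    · rw [Nat.unpair_pair]; exact hj

end

section
variable {X : Type} [NormedAddCommGroup X] [NormedSpace ℝ X]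

theorem CS.iUnion {M : ℕ → Set X} (h : ∀ n, CS (M n)) : CS (⋃ n, M n) := by
  intro ε hε
  have h' := fun n => h n ε hε
  choose H a1 a2 using h'
  refine ⟨fun n => H (Nat.unpair n).1 (Nat.unpair n).2, fun n => a1 _ _, ?_⟩
  intro x hx
  obtain ⟨i, hi⟩ := mem_iUnion.1 hx
  obtain ⟨j, hj⟩ := mem_iUnion.1 (a2 i hi)
  refine mem_iUnion.2 ⟨Nat.pair i j, ?_⟩
  rw [Nat.unpair_pair]; exact hj

end

section
variable {X : Type} [NormedAddCommGroup X] [NormedSpace ℝ X]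

theorem CS.span {M : Set X} (h : CS M) : CS ((Submodule.span ℝ M : Submodule ℝ X) : Set X) := by
  have h0 : CS ({0} : Set X) := by
    intro ε hε
    exact ⟨fun _ => {0}, fun _ => ECW.mono ECW.zero Subset.rfl hε.le, fun x hx =>
      mem_iUnion.2 ⟨0, hx⟩⟩
  let S : ℕ → Set X := fun s => Nat.rec ({0} : Set X)
    (fun _ T => {x : X | ∃ a ∈ T, ∃ b ∈ {x : X | ∃ t : ℝ, ∃ y ∈ M, x = t • y}, x = a + b}) s
  have hS0 : S 0 = {0} := rfl
  have hSs : ∀ s, S (s + 1) =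
      {x : X | ∃ a ∈ S s, ∃ b ∈ {x : X | ∃ t : ℝ, ∃ y ∈ M, x = t • y}, x = a + b} := fun s => rfl
  have hCS : ∀ s, CS (S s) := by
    intro s
    induction s with
    | zero => exact h0
    | succ s ih => rw [hSs]; exact CS.add ih (CS.smul_all h)
  refine CS.mono (CS.iUnion hCS) ?_
  have hadd : ∀ s s' a b, a ∈ S s → b ∈ S s' → a + b ∈ S (s + s') := by
    intro s s'
    induction s' with
    | zero =>
      intro a b ha hb
      rw [hS0, mem_singleton_iff] at hb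
      rw [hb, add_zero, add_zero]
      exact ha
    | succ s' ih =>
      intro a b ha hb
      rw [hSs] at hb
      obtain ⟨b', hb', c, hc, rfl⟩ := hb
      rw [← add_assoc, ← add_assoc, hSs]
      exact ⟨a + b', ih a b' ha hb', c, hc, rfl⟩
  have hsmul : ∀ s (c : ℝ) a, a ∈ S s → c • a ∈ S s := by
    intro s c
    induction s with
    | zero =>
      intro a ha
      rw [hS0, mem_singleton_iff] at ha
      rw [ha, smul_zero]
      rfl
    | succ s ih =>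
      intro a ha
      rw [hSs] at ha ⊢
      obtain ⟨b, hb, _, ⟨t, y, hy, rfl⟩, rfl⟩ := ha
      exact ⟨c • b, ih b hb, (c * t) • y, ⟨c * t, y, hy, rfl⟩, by rw [smul_add, mul_smul]⟩
  intro x hx
  induction hx using Submodule.span_induction with
  | mem y hy =>
    refine mem_iUnion.2 ⟨1, ?_⟩
    show y ∈ S (0 + 1)
    rw [hSs]
    exact ⟨0, rfl, (1 : ℝ) • y, ⟨1, y, hy, rfl⟩, by rw [one_smul, zero_add]⟩
  | zero => exact mem_iUnion.2 ⟨0, rfl⟩
  | add a b _ _ ha hb =>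
    obtain ⟨i, hi⟩ := mem_iUnion.1 ha
    obtain ⟨j, hj⟩ := mem_iUnion.1 hb
    exact mem_iUnion.2 ⟨i + j, hadd i j a b hi hj⟩
  | smul c a _ ha =>
    obtain ⟨i, hi⟩ := mem_iUnion.1 ha
    exact mem_iUnion.2 ⟨i, hsmul i c a hi⟩

end

section
variable {X : Type} [NormedAddCommGroup X] [NormedSpace ℝ X]

theorem CS.closure {M : Set X} (h : CS M) : CS (closure M) := by
  intro ε hε
  obtain ⟨H, a1, a2⟩ := h (ε / 2) (by positivity)
  refine ⟨fun n => {x : X | ∃ y ∈ H n, ‖x - y‖ ≤ ε / 2}, fun n => ?_, ?_⟩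
  · have := ECW.thicken (δ := ε / 2) (a1 n)
    rwa [add_halves] at this
  · intro x hx
    obtain ⟨y, hy, hxy⟩ := Metric.mem_closure_iff.1 hx (ε / 2) (by positivity)
    obtain ⟨j, hj⟩ := mem_iUnion.1 (a2 hy)
    refine mem_iUnion.2 ⟨j, y, hj, ?_⟩
    rw [← dist_eq_norm]
    exact hxy.le

end

section
variable {X : Type} [NormedAddCommGroup X] [NormedSpace ℝ X]

theorem CS.of_wcg (h : WCG X) : CS (univ : Set X) := by
  obtain ⟨K, hK, hd⟩ := h
  have h1 : CS K := by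
    intro ε hε
    exact ⟨fun _ => K, fun _ => ECW.mono (ECW.of_compact hK) Subset.rfl hε.le,
      fun x hx => mem_iUnion.2 ⟨0, hx⟩⟩
  have h2 := CS.closure (CS.span h1)
  rwa [hd.closure_eq] at h2

end

end Pool.Agent.Helper755.WH
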