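import Mathlib

set_option autoImplicit false

namespace Pool.Agent.Helper755.WH

open Cardinal Set

section Closure

variable {U ι : Type}

/-- Elements generated from `S` by finitary operations. -/
inductive Gen (ops : ι → List U → U) (S : Set U) : U → Prop
  | base (u : U) (h : u ∈ S) : Gen ops S u
  | step (i : ι) (l : List U) (h : ∀ u ∈ l, Gen ops S u) : Gen ops S (ops i l)

/-- The closure of a set under finitary operations. -/
def cl (ops : ι → List U → U) (S : Set U) : Set U := {u | Gen ops S u}

/-- A set closed under operations. -/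
def Closed (ops : ι → List U → U) (M : Set U) : Prop :=
  ∀ i l, (∀ u ∈ l, u ∈ M) → ops i l ∈ M

variable (ops : ι → List U → U)

theorem subset_cl (S : Set U) : S ⊆ cl ops S := fun u hu => Gen.base u hu

theorem cl_closed (S : Set U) : Closed ops (cl ops S) := fun i l h => Gen.step i l h

theorem cl_min {S M : Set U} (hM : Closed ops M) (h : S ⊆ M) : cl ops S ⊆ M := by
  intro u hu
  induction hu with
  | base u hu => exact h hu
  | step i l _ ih => exact hM i l ih

theorem cl_mono {S S' : Set U} (h : S ⊆ S') : cl ops S ⊆ cl ops S' :=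
  cl_min ops (cl_closed ops S') (h.trans (subset_cl ops S'))

/-- One step of the iteration. -/
def nxt (T : Set U) : Set U :=
  T ∪ range (fun p : ι × List T => ops p.1 (List.map Subtype.val p.2))

/-- The stages of the iteration. -/
def stg (S : Set U) : ℕ → Set U
  | 0 => S
  | n + 1 => nxt ops (stg S n)

/-- Closures have small cardinality. -/
theorem mk_cl_le [Countable ι] (S : Set U) : #(cl ops S) ≤ max #S ℵ₀ := by
  set T : ℕ → Set U := stg ops S with hT
  have hT0 : T 0 = S := rfl
  have hT1 : ∀ n, T (n + 1) = nxt ops (T n) := fun n => rfl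
  have hmono : Monotone T := by
    apply monotone_nat_of_le_succ
    intro n
    rw [hT1]
    unfold nxt
    exact subset_union_left
  set κ := max #S ℵ₀ with hκ
  have hκ0 : ℵ₀ ≤ κ := le_max_right _ _
  have hcard : ∀ n, #(T n) ≤ κ := by
    intro n
    induction n with
    | zero => exact le_max_left _ _
    | succ n ih =>
      rw [hT1]
      unfold nxt
      refine (mk_union_le _ _).trans ?_
      refine (add_le_add ih (mk_range_le.trans ?_)).trans (add_eq_self hκ0).le
      rw [mk_prod, lift_id, lift_id]
      have h1 : #ι ≤ κ := (mk_le_aleph0 (α := ι)).trans hκ0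
      have h2 : #(List (T n)) ≤ κ := (mk_list_le_max _).trans (max_le hκ0 ih)
      exact (mul_le_mul' h1 h2).trans (mul_eq_self hκ0).le
  have hsub : cl ops S ⊆ ⋃ n, T n := by
    apply cl_min
    · intro i l hl
      have : ∃ n, ∀ u ∈ l, u ∈ T n := by
        induction l with
        | nil => exact ⟨0, fun u hu => absurd hu (List.not_mem_nil)⟩
        | cons a l ih =>
          obtain ⟨n, hn⟩ := ih (fun u hu => hl u (List.mem_cons_of_mem _ hu))
          obtain ⟨m, hm⟩ := mem_iUnion.mp (hl a List.mem_cons_self)
          refine ⟨max n m, fun u hu => ?_⟩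
          rcases List.mem_cons.mp hu with rfl | hu
          · exact hmono (le_max_right n m) hm
          · exact hmono (le_max_left n m) (hn u hu)
      obtain ⟨n, hn⟩ := this
      refine mem_iUnion.mpr ⟨n + 1, ?_⟩
      rw [hT1]
      unfold nxt
      refine Or.inr ⟨(i, l.pmap Subtype.mk hn), ?_⟩
      simp only
      rw [List.map_pmap]
      simp
    · intro u hu
      exact mem_iUnion.mpr ⟨0, hu⟩
  calc #(cl ops S) ≤ #(⋃ n, T n) := mk_le_mk_of_subset hsub
    _ ≤ #ℕ * ⨆ n, #(T n) := mk_iUnion_le _
    _ ≤ κ * κ := by
      apply mul_le_mul'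
      · rw [mk_nat]; exact hκ0
      · exact ciSup_le' hcard
    _ = κ := mul_eq_self hκ0

/-- Elements of the closure of an indexed set appear at some stage. -/
theorem cl_stage {I : Type} [LinearOrder I] (s : I → U) (J : Set I) {u : U}
    (hu : u ∈ cl ops (s '' J)) : u ∈ cl ops ∅ ∨ ∃ j ∈ J, u ∈ cl ops (s '' Iic j) := by
  have hm : ∀ {j k : I}, j ≤ k → cl ops (s '' Iic j) ⊆ cl ops (s '' Iic k) := fun h =>
    cl_mono ops (image_mono (Iic_subset_Iic.mpr h))
  induction hu with
  | base u hu =>
    obtain ⟨j, hj, rfl⟩ := hu
    exact Or.inr ⟨j, hj, subset_cl ops _ ⟨j, mem_Iic.mpr le_rfl, rfl⟩⟩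
  | step i l _ ih =>
    have : (∀ u ∈ l, u ∈ cl ops ∅) ∨ ∃ j ∈ J, ∀ u ∈ l, u ∈ cl ops (s '' Iic j) := by
      clear * - ih hm
      induction l with
      | nil => exact Or.inl (fun u hu => absurd hu (List.not_mem_nil))
      | cons a l ihl =>
        have h1 := ih a List.mem_cons_self
        have h2 := ihl (fun u hu => ih u (List.mem_cons_of_mem _ hu))
        have h0 : ∀ j, cl ops ∅ ⊆ cl ops (s '' Iic j) := fun j => cl_mono ops (empty_subset _)
        rcases h1 with h1 | ⟨j, hj, h1⟩
        · rcases h2 with h2 | ⟨k, hk, h2⟩
          · left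
            intro u hu
            rcases List.mem_cons.mp hu with rfl | hu
            · exact h1
            · exact h2 u hu
          · right
            refine ⟨k, hk, fun u hu => ?_⟩
            rcases List.mem_cons.mp hu with rfl | hu
            · exact h0 k h1
            · exact h2 u hu
        · rcases h2 with h2 | ⟨k, hk, h2⟩
          · right
            refine ⟨j, hj, fun u hu => ?_⟩
            rcases List.mem_cons.mp hu with rfl | hu
            · exact h1
            · exact h0 j (h2 u hu)
          · right
            rcases le_total j k with hjk | hjk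
            · refine ⟨k, hk, fun u hu => ?_⟩
              rcases List.mem_cons.mp hu with rfl | hu
              · exact hm hjk h1
              · exact h2 u hu
            · refine ⟨j, hj, fun u hu => ?_⟩
              rcases List.mem_cons.mp hu with rfl | hu
              · exact h1
              · exact hm hjk (h2 u hu)
    rcases this with h | ⟨j, hj, h⟩
    · exact Or.inl (Gen.step i l h)
    · exact Or.inr ⟨j, hj, Gen.step i l h⟩

end Closure

end Pool.Agent.Helper755.WH
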