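import Pool.Agent.Helper755.WH.Defs

set_option autoImplicit false

namespace Pool.Agent.Helper755.WH

open Filter Topology Set

/-! ### TARGET (prove; put helper lemmas here, names ending in the job number) -/

theorem approx_9876 {Z : Type} [NormedAddCommGroup Z] [NormedSpace ℝ Z] (p : Submodule ℝ Z) (z : Z)
    (δ : ℝ) (hδ : 0 < δ)
    (h : ∀ φ : StrongDual ℝ Z, (∀ y ∈ p, φ y = 0) → |φ z| ≤ δ * ‖φ‖) :
    ∃ y ∈ p, ‖z - y‖ ≤ 2 * δ := by
  set q := p.topologicalClosure with hq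
  have : IsClosed (q : Set Z) := p.isClosed_topologicalClosure
  obtain ⟨g, hg1, hg2⟩ := exists_dual_vector'' ℝ (q.mkQL z)
  set φ : StrongDual ℝ Z := g.comp q.mkQL with hφ
  have hmk : ∀ x : Z, ‖q.mkQL x‖ ≤ ‖x‖ := fun x => Submodule.Quotient.norm_mk_le q x
  have h1 : ‖φ‖ ≤ 1 := by
    refine φ.opNorm_le_bound zero_le_one fun x => ?_
    rw [hφ, ContinuousLinearMap.comp_apply]
    refine (g.le_opNorm _).trans ?_
    exact mul_le_mul hg1 (hmk x) (norm_nonneg _) zero_le_one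
  have h2 : ∀ y ∈ p, φ y = 0 := by
    intro y hy
    have : q.mkQL y = 0 := by
      rw [Submodule.mkQL_apply, Submodule.mkQ_apply, Submodule.Quotient.mk_eq_zero]
      exact p.le_topologicalClosure hy
    rw [hφ, ContinuousLinearMap.comp_apply, this, map_zero]
  have h3 := h φ h2
  have h4 : ‖q.mkQL z‖ ≤ δ := by
    have h5 : φ z = ‖q.mkQL z‖ := by
      rw [hφ, ContinuousLinearMap.comp_apply, hg2]
      rfl
    rw [← h5]
    refine (le_abs_self _).trans (h3.trans ?_)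
    nlinarith
  obtain ⟨m, hm1, hm2⟩ := Submodule.Quotient.norm_mk_lt (q.mkQL z) (show 0 < δ / 2 by positivity)
  have h6 : z - m ∈ q := by
    have h7 : (Submodule.Quotient.mk z : Z ⧸ q) = Submodule.Quotient.mk m := hm1.symm
    exact (Submodule.Quotient.eq q).1 h7
  have h8 : z - m ∈ closure (p : Set Z) := h6
  rw [Metric.mem_closure_iff] at h8
  obtain ⟨y, hy, hyw⟩ := h8 (δ / 2) (by positivity)
  refine ⟨y, hy, ?_⟩
  rw [dist_eq_norm] at hyw
  have h9 : z - y = m + (z - m - y) := by abel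
  rw [h9]
  refine (norm_add_le _ _).trans ?_
  linarith

theorem ext_9876 {X Z : Type} [NormedAddCommGroup X] [NormedSpace ℝ X] [NormedAddCommGroup Z]
    [NormedSpace ℝ Z] (T : X →L[ℝ] Z) {c : ℝ} (hc : 0 < c) (hT : ∀ x, c * ‖x‖ ≤ ‖T x‖)
    (f : StrongDual ℝ X) : ∃ ψ : StrongDual ℝ Z, (∀ x, ψ (T x) = f x) ∧ ‖ψ‖ ≤ ‖f‖ / c := by
  have hinj : Function.Injective (T : X →ₗ[ℝ] Z) := by
    rw [← LinearMap.ker_eq_bot, LinearMap.ker_eq_bot']
    intro x hx
    have h1 := hT x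
    have hx' : T x = 0 := hx
    rw [hx', norm_zero] at h1
    have h2 : ‖x‖ ≤ 0 := by
      by_contra h
      push Not at h
      have := mul_pos hc h
      linarith
    exact norm_le_zero_iff.1 h2
  let e := LinearEquiv.ofInjective (T : X →ₗ[ℝ] Z) hinj
  have he : ∀ y : LinearMap.range (T : X →ₗ[ℝ] Z), T (e.symm y) = (y : Z) := by
    intro y
    have h1 : e (e.symm y) = y := e.apply_symm_apply y
    exact congrArg Subtype.val h1
  let f0 : StrongDual ℝ (LinearMap.range (T : X →ₗ[ℝ] Z)) :=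
    LinearMap.mkContinuous ((f : X →ₗ[ℝ] ℝ) ∘ₗ (e.symm : _ →ₗ[ℝ] X)) (‖f‖ / c) (by
      intro y
      change ‖f (e.symm y)‖ ≤ _
      refine (f.le_opNorm _).trans ?_
      rw [div_mul_eq_mul_div, mul_div_assoc]
      refine mul_le_mul_of_nonneg_left ?_ (norm_nonneg _)
      rw [le_div_iff₀ hc, mul_comm]
      have h1 := hT (e.symm y)
      rw [he y] at h1
      exact h1)
  have hf0 : ‖f0‖ ≤ ‖f‖ / c := LinearMap.mkContinuous_norm_le _ (by positivity) _
  obtain ⟨ψ, h1, h2⟩ := exists_extension_norm_eq (LinearMap.range (T : X →ₗ[ℝ] Z)) f0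
  refine ⟨ψ, fun x => ?_, h2.le.trans hf0⟩
  have h3 := h1 ⟨T x, ⟨x, rfl⟩⟩
  have h4 : e.symm ⟨T x, ⟨x, rfl⟩⟩ = x := by
    apply hinj
    exact he ⟨T x, ⟨x, rfl⟩⟩
  rw [h3]
  change f (e.symm ⟨T x, ⟨x, rfl⟩⟩) = f x
  rw [h4]

theorem CS.of_embed {X Z : Type} [NormedAddCommGroup X] [NormedSpace ℝ X] [NormedAddCommGroup Z]
    [NormedSpace ℝ Z] (T : X →L[ℝ] Z) {c : ℝ} (hc : 0 < c) (hT : ∀ x, c * ‖x‖ ≤ ‖T x‖)
    (hZ : CS (univ : Set Z)) : CS (univ : Set X) := by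
  intro ε hε
  have hδ : 0 < c * ε / 3 := by positivity
  obtain ⟨E, hE, hcov⟩ := hZ (c * ε / 3) hδ
  refine ⟨fun n => T ⁻¹' E n, fun n => ?_, ?_⟩
  · intro ι U k hk
    obtain ⟨z, L, hL⟩ := hE n ι U (fun i => T (k i)) hk
    obtain ⟨y, ⟨x, rfl⟩, hy⟩ := approx_9876 (LinearMap.range (T : X →ₗ[ℝ] Z)) z (c * ε / 3) hδ (by
      intro φ hφ
      obtain ⟨h1, h2⟩ := hL φ
      have h3 : L φ = 0 := by
        refine tendsto_nhds_unique h1 ?_
        have : (fun i => φ (T (k i))) = fun _ => (0 : ℝ) := by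
          funext i
          exact hφ _ ⟨k i, rfl⟩
        rw [this]
        exact tendsto_const_nhds
      rw [h3, zero_sub, abs_neg] at h2
      exact h2)
    choose ψ hψ1 hψ2 using ext_9876 T hc hT
    refine ⟨x, fun f => L (ψ f), fun f => ⟨?_, ?_⟩⟩
    · have h1 := (hL (ψ f)).1
      refine h1.congr fun i => ?_
      exact hψ1 f (k i)
    · have h1 := (hL (ψ f)).2
      have h2 : |ψ f z - f x| ≤ ‖ψ f‖ * (2 * (c * ε / 3)) := by
        rw [← hψ1 f x, ← map_sub]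
        refine ((ψ f).le_opNorm _).trans ?_
        exact mul_le_mul_of_nonneg_left hy (norm_nonneg _)
      have h3 : |L (ψ f) - f x| ≤ |L (ψ f) - ψ f z| + |ψ f z - f x| := abs_sub_le _ _ _
      have h4 := hψ2 f
      rw [le_div_iff₀ hc] at h4
      calc |L (ψ f) - f x| ≤ c * ε / 3 * ‖ψ f‖ + ‖ψ f‖ * (2 * (c * ε / 3)) := by linarith
        _ = ε * (‖ψ f‖ * c) := by ring
        _ ≤ ε * ‖f‖ := mul_le_mul_of_nonneg_left h4 hε.le
  · intro x _
    obtain ⟨n, hn⟩ := mem_iUnion.1 (hcov (mem_univ (T x)))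
    exact mem_iUnion.2 ⟨n, hn⟩

end Pool.Agent.Helper755.WH
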