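import Mathlib

set_option autoImplicit false

namespace Pool.Agent.Helper755.WH

open Filter Topology Set

section Defs

variable {X : Type} [NormedAddCommGroup X] [NormedSpace ℝ X]

/-- `ε`-weak relative compactness, expressed through ultrafilters: every ultrafilter limit of
points of `H` (taken in the bidual) is within `ε` of a point of the space. -/
def ECW (ε : ℝ) (H : Set X) : Prop :=
  ∀ (ι : Type) (U : Ultrafilter ι) (k : ι → X), (∀ i, k i ∈ H) →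
    ∃ (z : X) (L : StrongDual ℝ X → ℝ), ∀ f : StrongDual ℝ X,
      Tendsto (fun i => f (k i)) U (𝓝 (L f)) ∧ |L f - f z| ≤ ε * ‖f‖

/-- A set which for every `ε > 0` has a countable cover by `ε`-weakly relatively compact sets. -/
def CS (M : Set X) : Prop :=
  ∀ ε : ℝ, 0 < ε → ∃ H : ℕ → Set X, (∀ n, ECW ε (H n)) ∧ M ⊆ ⋃ n, H n

theorem ECW.mono {ε ε' : ℝ} {H H' : Set X} (h : ECW ε' H') (hH : H ⊆ H') (hε : ε' ≤ ε) :
    ECW ε H := by
  intro ι U k hk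
  obtain ⟨z, L, hL⟩ := h ι U k (fun i => hH (hk i))
  exact ⟨z, L, fun f => ⟨(hL f).1, (hL f).2.trans (by gcongr)⟩⟩

theorem CS.mono {M M' : Set X} (h : CS M') (hM : M ⊆ M') : CS M := by
  intro ε hε
  obtain ⟨H, h1, h2⟩ := h ε hε
  exact ⟨H, h1, hM.trans h2⟩

end Defs

/-- Weak-to-weak continuity at every point, in terms of basic neighbourhoods. -/
def WWC {X Y : Type} [NormedAddCommGroup X] [NormedSpace ℝ X] [NormedAddCommGroup Y]
    [NormedSpace ℝ Y] (h : X → Y) : Prop :=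
  ∀ (f : StrongDual ℝ Y) (x : X) (η : ℝ), 0 < η → ∃ (Φ : Finset (StrongDual ℝ X)) (ρ : ℝ), 0 < ρ ∧
    ∀ x' : X, (∀ φ ∈ Φ, |φ x' - φ x| < ρ) → |f (h x') - f (h x)| < η

/-- A total family which is `c_0`-like up to countable partitions. -/
def TF (Y : Type) [NormedAddCommGroup Y] [NormedSpace ℝ Y] (V : Set Y) : Prop :=
  ∃ (Γ : Type) (y : Γ → Y), (∀ γ, y γ ∈ V) ∧ (∀ γ, ‖y γ‖ ≤ 1) ∧
    (∀ ε : ℝ, 0 < ε → ∃ c : Γ → ℕ, ∀ f : StrongDual ℝ Y, ‖f‖ ≤ 1 → ∀ n : ℕ,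
      {γ | c γ = n ∧ ε < |f (y γ)|}.Finite) ∧
    V ⊆ closure ((Submodule.span ℝ (range y) : Submodule ℝ Y) : Set Y)

/-- WCG. -/
def WCG (Z : Type) [NormedAddCommGroup Z] [NormedSpace ℝ Z] : Prop :=
  ∃ K : Set Z, IsCompact (toWeakSpace ℝ Z '' K) ∧ Dense (Submodule.span ℝ K : Set Z)

end Pool.Agent.Helper755.WH
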