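import Pool.Agent.Helper755.WH.Defs

set_option autoImplicit false

namespace Pool.Agent.Helper755.WH

open Filter Topology Set

/-! ### TARGET (prove; put helper lemmas here, names ending in the job number) -/

theorem namioka_aux {X Y : Type} [MetricSpace X] [CompleteSpace X] [NormedAddCommGroup Y]
    [NormedSpace ℝ Y] (h : X → Y) (hh : ∀ f : StrongDual ℝ Y, Continuous fun x => f (h x))
    (ε : ℝ) (hε : 0 < ε) (O : Set X) (hO : IsOpen O) (hne : O.Nonempty) :
    ∃ V ⊆ O, IsOpen V ∧ V.Nonempty ∧ ∀ a ∈ V, ∀ b ∈ V, ‖h a - h b‖ ≤ ε := by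
  by_contra hcon
  have hstar : ∀ V ⊆ O, IsOpen V → V.Nonempty → ∃ a ∈ V, ∃ b ∈ V, ε < ‖h a - h b‖ := by
    intro V h1 h2 h3
    by_contra h4
    apply hcon
    refine ⟨V, h1, h2, h3, fun a ha b hb => ?_⟩
    by_contra h5
    exact h4 ⟨a, ha, b, hb, not_le.1 h5⟩
  have step : ∀ (x : X) (n : ℕ), ∃ a b : X, x ∈ O → (a ∈ O ∧ b ∈ O ∧ dist a x < 1 / ((n : ℝ) + 1) ∧
      dist b x < 1 / ((n : ℝ) + 1) ∧ ε < ‖h a - h b‖) := by
    intro x n
    by_cases hx : x ∈ O
    · have hpos : (0 : ℝ) < 1 / ((n : ℝ) + 1) := by positivity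
      obtain ⟨a, ha, b, hb, hab⟩ := hstar (O ∩ Metric.ball x (1 / ((n : ℝ) + 1)))
        inter_subset_left (hO.inter Metric.isOpen_ball) ⟨x, hx, Metric.mem_ball_self hpos⟩
      exact ⟨a, b, fun _ => ⟨ha.1, hb.1, ha.2, hb.2, hab⟩⟩
    · exact ⟨x, x, fun h => absurd h hx⟩
  choose A B hAB using step
  obtain ⟨x0, hx0⟩ := hne
  let s : List (ℕ × Bool) → X := fun l => l.foldr (fun p y => if p.2 then A y p.1 else B y p.1) x0
  have hs0 : s [] = x0 := rfl
  have hsA : ∀ l n, s ((n, true) :: l) = A (s l) n := fun l n => by simp [s]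
  have hsB : ∀ l n, s ((n, false) :: l) = B (s l) n := fun l n => by simp [s]
  have hsO : ∀ l, s l ∈ O := by
    intro l
    induction l with
    | nil => exact hx0
    | cons p l ih =>
      obtain ⟨n, b⟩ := p
      cases b
      · rw [hsB]; exact (hAB _ n ih).2.1
      · rw [hsA]; exact (hAB _ n ih).1
  set X0 : Set X := closure (range s) with hX0
  have hX0c : IsClosed X0 := isClosed_closure
  have hsX : ∀ l, s l ∈ X0 := fun l => subset_closure (mem_range_self l)
  -- the closed span
  set W : Submodule ℝ Y := Submodule.span ℝ (range fun l => h (s l)) with hW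
  have hWmem : ∀ x ∈ X0, h x ∈ closure (W : Set Y) := by
    intro x hx
    by_contra hxn
    obtain ⟨f, u, hf1, hf2⟩ := geometric_hahn_banach_closed_point
      (W.convex.closure) isClosed_closure hxn
    have hf0 : ∀ w ∈ W, f w = 0 := by
      intro w hw
      by_contra hne
      have h1 : ∀ t : ℝ, f (t • w) < u := fun t =>
        hf1 _ (subset_closure (W.smul_mem t hw))
      have h2 := h1 (u / f w)
      rw [map_smul, smul_eq_mul, div_mul_cancel₀ _ hne] at h2
      exact lt_irrefl _ h2
    have hu : 0 < u := by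
      have := hf1 0 (subset_closure W.zero_mem)
      rwa [map_zero] at this
    have hcl : IsClosed {x : X | f (h x) = 0} := isClosed_eq (hh f) continuous_const
    have hsub : X0 ⊆ {x : X | f (h x) = 0} := by
      apply closure_minimal _ hcl
      rintro _ ⟨l, rfl⟩
      exact hf0 _ (Submodule.subset_span (mem_range_self l))
    have := hsub hx
    rw [mem_ofPred_eq] at this
    rw [this] at hf2
    linarith
  have hsep : TopologicalSpace.IsSeparable (closure (W : Set Y)) := by
    apply TopologicalSpace.IsSeparable.closure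
    apply TopologicalSpace.IsSeparable.span
    exact (countable_range _).isSeparable
  obtain ⟨c, hc1, hc2⟩ := hsep
  have hcne : c.Nonempty := by
    have h1 := hc2 (hWmem x0 (hsX []))
    rcases c.eq_empty_or_nonempty with rfl | h2
    · simp at h1
    · exact h2
  obtain ⟨y, rfl⟩ := hc1.exists_eq_range hcne
  -- the closed sets
  let F : ℕ → Set X0 := fun n => {z | ‖h z - y n‖ ≤ ε / 2}
  have hFc : ∀ n, IsClosed (F n) := by
    intro n
    have h1 : F n = ⋂ f : StrongDual ℝ Y, ⋂ _ : ‖f‖ ≤ 1, {z : X0 | f (h z) - f (y n) ≤ ε / 2} := by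
      ext z
      simp only [F, mem_ofPred_eq, mem_iInter]
      constructor
      · intro hz f hf
        rw [← map_sub]
        calc f (h z - y n) ≤ ‖f (h z - y n)‖ := Real.le_norm_self _
          _ ≤ ‖f‖ * ‖h z - y n‖ := f.le_opNorm _
          _ ≤ 1 * ‖h z - y n‖ := by gcongr
          _ ≤ ε / 2 := by rw [one_mul]; exact hz
      · intro hz
        obtain ⟨g, hg1, hg2⟩ := exists_dual_vector'' ℝ (h z - y n)
        have h2 := hz g hg1
        rw [← map_sub, hg2] at h2
        simpa using h2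
    rw [h1]
    refine isClosed_iInter fun f => isClosed_iInter fun _ => ?_
    exact isClosed_le (((hh f).comp continuous_subtype_val).sub continuous_const) continuous_const
  have hFU : ⋃ n, F n = univ := by
    rw [eq_univ_iff_forall]
    intro z
    have h1 := hc2 (hWmem z z.2)
    rw [Metric.mem_closure_iff] at h1
    obtain ⟨_, ⟨n, rfl⟩, hn⟩ := h1 (ε / 2) (by positivity)
    rw [mem_iUnion]
    refine ⟨n, ?_⟩
    rw [dist_eq_norm] at hn
    exact hn.le
  have : CompleteSpace X0 := hX0c.completeSpace_coe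
  have hdense := dense_iUnion_interior_of_closed hFc hFU
  have hO' : IsOpen {z : X0 | (z : X) ∈ O} := hO.preimage continuous_subtype_val
  obtain ⟨p, hpO, hpF⟩ := hdense.inter_open_nonempty _ hO' ⟨⟨x0, hsX []⟩, hx0⟩
  rw [mem_iUnion] at hpF
  obtain ⟨n, hpn⟩ := hpF
  obtain ⟨r, hr, hrF⟩ := Metric.isOpen_iff.1 isOpen_interior p hpn
  have hpc : (p : X) ∈ closure (range s) := p.2
  rw [Metric.mem_closure_iff] at hpc
  obtain ⟨_, ⟨l, rfl⟩, hl⟩ := hpc (r / 2) (by positivity)
  obtain ⟨n', hn'⟩ := exists_nat_one_div_lt (show (0 : ℝ) < r / 2 by positivity)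
  obtain ⟨-, -, hA, hB, hABe⟩ := hAB (s l) n' (hsO l)
  have hmem : ∀ z (hz : z ∈ X0), dist z (s l) < 1 / ((n' : ℝ) + 1) → ‖h z - y n‖ ≤ ε / 2 := by
    intro z hz hd
    have h1 : (⟨z, hz⟩ : X0) ∈ Metric.ball p r := by
      rw [Metric.mem_ball, Subtype.dist_eq]
      have h2 := dist_triangle z (s l) p
      rw [dist_comm (s l) (p : X)] at h2
      simp only
      linarith
    have h5 : (⟨z, hz⟩ : X0) ∈ F n := interior_subset (hrF h1)
    exact h5
  have h1 := hmem (A (s l) n') (by rw [← hsA]; exact hsX _) hA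
  have h2 := hmem (B (s l) n') (by rw [← hsB]; exact hsX _) hB
  have h3 : ‖h (A (s l) n') - h (B (s l) n')‖ ≤
      ‖h (A (s l) n') - y n‖ + ‖h (B (s l) n') - y n‖ := by
    have e : h (A (s l) n') - h (B (s l) n') =
      (h (A (s l) n') - y n) - (h (B (s l) n') - y n) := by abel
    rw [e]; exact norm_sub_le _ _
  linarith

end Pool.Agent.Helper755.WH
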