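import Pool.Agent.Helper755.WH.E1

set_option autoImplicit false

namespace Pool.Agent.Helper755.WH

open Filter Topology Set

/-! ### TARGET (prove; put helper lemmas here, names ending in the job number) -/

theorem namioka {X Y : Type} [MetricSpace X] [CompleteSpace X] [NormedAddCommGroup Y]
    [NormedSpace ℝ Y] (h : X → Y) (hh : ∀ f : StrongDual ℝ Y, Continuous fun x => f (h x)) :
    Dense {x : X | ∀ ε : ℝ, 0 < ε → ∃ r : ℝ, 0 < r ∧ ∀ x' : X, dist x' x < r →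
      ‖h x' - h x‖ ≤ ε} := by
  let G : ℕ → Set X := fun n => ⋃₀ {V | IsOpen V ∧ ∀ a ∈ V, ∀ b ∈ V, ‖h a - h b‖ ≤ 1 / ((n : ℝ) + 1)}
  have hGo : ∀ n, IsOpen (G n) := fun n => isOpen_sUnion fun V hV => hV.1
  have hGd : ∀ n, Dense (G n) := by
    intro n
    rw [dense_iff_inter_open]
    intro O hO hne
    have hpos : (0 : ℝ) < 1 / ((n : ℝ) + 1) := by positivity
    obtain ⟨V, hVO, hV, ⟨v, hv⟩, hV2⟩ := namioka_aux h hh _ hpos O hO hne
    exact ⟨v, hVO hv, Set.mem_sUnion.2 ⟨V, ⟨hV, hV2⟩, hv⟩⟩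
  have hd := dense_iInter_of_isOpen_nat hGo hGd
  refine hd.mono ?_
  intro x hx ε hε
  obtain ⟨n, hn⟩ := exists_nat_one_div_lt hε
  obtain ⟨V, ⟨hV, hV2⟩, hxV⟩ := Set.mem_sUnion.1 (Set.mem_iInter.1 hx n)
  obtain ⟨r, hr, hrV⟩ := Metric.isOpen_iff.1 hV x hxV
  exact ⟨r, hr, fun x' hx' => (hV2 x' (hrV hx') x hxV).trans hn.le⟩

end Pool.Agent.Helper755.WH
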