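import Pool.Agent.Helper755.WH.Defs

set_option autoImplicit false

namespace Pool.Agent.Helper755.WH

open Filter Topology Set

/-! ### TARGET (prove; put helper lemmas here, names ending in the job number) -/

theorem L_sum_9880 {X : Type} [NormedAddCommGroup X] [NormedSpace ℝ X] (L : StrongDual ℝ X → ℝ)
    (hadd : ∀ f g, L (f + g) = L f + L g) (hsmul : ∀ (t : ℝ) (f : StrongDual ℝ X),
      L (t • f) = t * L f) {ι : Type*} (s : Finset ι) (t : ι → ℝ) (F : ι → StrongDual ℝ X) :
    L (∑ i ∈ s, t i • F i) = ∑ i ∈ s, t i * L (F i) := by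
  classical
  have h0 : L 0 = 0 := by
    have := hsmul 0 0
    simpa using this
  induction s using Finset.induction_on with
  | empty => simpa using h0
  | insert a s ha ih =>
    rw [Finset.sum_insert ha, Finset.sum_insert ha, hadd, hsmul, ih]

theorem norm_le_9880 {X : Type} [NormedAddCommGroup X] [NormedSpace ℝ X]
    (G : StrongDual ℝ X) {r c : ℝ} (hr : 0 < r) (h : ∀ v : X, ‖v‖ < r → |G v| ≤ c) :
    r * ‖G‖ ≤ c := by
  have hc : 0 ≤ c := by
    have := h 0 (by simpa using hr)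
    simpa using this
  have key : ‖G‖ ≤ c / r := by
    apply ContinuousLinearMap.opNorm_le_bound _ (by positivity)
    intro x
    rw [Real.norm_eq_abs]
    -- for every `s > ‖x‖`, `|G x| ≤ c / r * s`
    have h1 : ∀ s : ℝ, ‖x‖ < s → |G x| ≤ c / r * s := by
      intro s hs
      have hs0 : 0 < s := lt_of_le_of_lt (norm_nonneg x) hs
      have h2 : ‖(r / s) • x‖ < r := by
        rw [norm_smul, Real.norm_eq_abs, abs_of_pos (by positivity)]
        calc r / s * ‖x‖ < r / s * s := by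
              apply mul_lt_mul_of_pos_left hs (by positivity)
          _ = r := by field_simp
      have h3 := h _ h2
      rw [map_smul, smul_eq_mul, abs_mul, abs_of_pos (show (0:ℝ) < r / s by positivity)] at h3
      calc |G x| = (s / r) * (r / s * |G x|) := by field_simp
        _ ≤ (s / r) * c := by
            apply mul_le_mul_of_nonneg_left h3 (by positivity)
        _ = c / r * s := by ring
    apply le_of_forall_pos_le_add
    intro ε hε
    have hcr : 0 ≤ c / r := by positivity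
    have h4 := h1 (‖x‖ + ε / (c / r + 1)) (by
      have : 0 < ε / (c / r + 1) := by positivity
      linarith)
    have h5 : c / r * (ε / (c / r + 1)) ≤ ε := by
      rw [← mul_div_assoc, div_le_iff₀ (by positivity)]
      nlinarith
    calc |G x| ≤ c / r * (‖x‖ + ε / (c / r + 1)) := h4
      _ = c / r * ‖x‖ + c / r * (ε / (c / r + 1)) := by ring
      _ ≤ c / r * ‖x‖ + ε := by linarith
  have := mul_le_mul_of_nonneg_left key hr.le
  calc r * ‖G‖ ≤ r * (c / r) := this
    _ = c := by field_simp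

theorem helly {X : Type} [NormedAddCommGroup X] [NormedSpace ℝ X] (L : StrongDual ℝ X → ℝ)
    (hadd : ∀ f g, L (f + g) = L f + L g) (hsmul : ∀ (t : ℝ) (f : StrongDual ℝ X),
      L (t • f) = t * L f) {δ r : ℝ} (hδ : 0 ≤ δ) (hδr : δ < r) (hL : ∀ f, |L f| ≤ δ * ‖f‖)
    (Φ : Finset (StrongDual ℝ X)) {ρ : ℝ} (hρ : 0 < ρ) :
    ∃ v : X, ‖v‖ < r ∧ ∀ φ ∈ Φ, |φ v - L φ| < ρ := by
  classical
  have hr : 0 < r := lt_of_le_of_lt hδ hδr
  by_contra hcon
  push Not at hcon
  let P : X →ₗ[ℝ] ({φ // φ ∈ Φ} → ℝ) := LinearMap.pi (fun φ => (φ.1 : X →ₗ[ℝ] ℝ))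
  have hP : ∀ v φ, P v φ = φ.1 v := fun v φ => rfl
  have hCconv : Convex ℝ (P '' Metric.ball (0 : X) r) :=
    (convex_ball (0 : X) r).linear_image P
  have hWconv : Convex ℝ (Metric.ball (fun φ : {φ // φ ∈ Φ} => L φ.1) ρ) :=
    convex_ball _ _
  have hdisj : Disjoint (Metric.ball (fun φ : {φ // φ ∈ Φ} => L φ.1) ρ)
      (P '' Metric.ball (0 : X) r) := by
    rw [Set.disjoint_left]
    rintro w hw ⟨v, hv, rfl⟩
    rw [Metric.mem_ball, dist_pi_lt_iff hρ] at hw
    obtain ⟨φ, hφ, h1⟩ := hcon v (by simpa using hv)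
    have h2 := hw ⟨φ, hφ⟩
    rw [Real.dist_eq] at h2
    simp only [hP] at h2
    linarith
  obtain ⟨g, u, hg1, hg2⟩ := geometric_hahn_banach_open hWconv Metric.isOpen_ball hCconv hdisj
  set t : {φ // φ ∈ Φ} → ℝ := fun φ => g (fun j => if φ = j then 1 else 0) with ht
  have hg : ∀ w, g w = ∑ φ, w φ * t φ := by
    intro w
    have := LinearMap.pi_apply_eq_sum_univ (g : ({φ // φ ∈ Φ} → ℝ) →ₗ[ℝ] ℝ) w
    simpa [smul_eq_mul] using this
  set G : StrongDual ℝ X := ∑ φ : {φ // φ ∈ Φ}, t φ • φ.1 with hG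
  have hGv : ∀ v, g (P v) = G v := by
    intro v
    rw [hg, hG, ContinuousLinearMap.sum_apply]
    apply Finset.sum_congr rfl
    intro φ _
    rw [ContinuousLinearMap.smul_apply, smul_eq_mul, hP, mul_comm]
  have hLG : g (fun φ : {φ // φ ∈ Φ} => L φ.1) = L G := by
    rw [hg, hG, L_sum_9880 L hadd hsmul]
    apply Finset.sum_congr rfl
    intro φ _
    rw [mul_comm]
  have h1 : L G < u := by
    rw [← hLG]
    exact hg1 _ (Metric.mem_ball_self hρ)
  have h2 : ∀ v : X, ‖v‖ < r → u ≤ G v := by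
    intro v hv
    rw [← hGv]
    exact hg2 _ ⟨v, by simpa using hv, rfl⟩
  have h3 : ∀ v : X, ‖v‖ < r → |G v| ≤ -u := by
    intro v hv
    have a := h2 v hv
    have b := h2 (-v) (by simpa using hv)
    rw [map_neg] at b
    rw [abs_le]
    constructor <;> linarith
  have h4 := norm_le_9880 G hr h3
  have h5 := hL G
  have h6 : -(L G) ≤ |L G| := neg_le_abs _
  have h7 : δ * ‖G‖ ≤ r * ‖G‖ := mul_le_mul_of_nonneg_right hδr.le (norm_nonneg _)
  linarith

end Pool.Agent.Helper755.WH
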