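import Pool.Agent.Helper755.WH.F1

set_option autoImplicit false

namespace Pool.Agent.Helper755.WH

open Filter Topology Set

/-! ### TARGET (prove; put helper lemmas here, names ending in the job number) -/

theorem class_ecw {X Y : Type} [NormedAddCommGroup X] [NormedSpace ℝ X] [NormedAddCommGroup Y]
    [NormedSpace ℝ Y] (h : X → Y) (hh : WWC h) {ε δ r s : ℝ} (hδ0 : 0 ≤ δ)
    (hδ : δ < s) (E : Set X) (hE : ECW δ E) :
    ECW ε {y : Y | ∃ x ∈ E, (∀ x', ‖x' - x‖ < s → ‖h x' - h x‖ ≤ ε) ∧ ‖h x‖ ≤ r ∧ y = h x} := by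
  intro ι U k hk
  have hk' : ∀ i, ∃ x, x ∈ E ∧ (∀ x', ‖x' - x‖ < s → ‖h x' - h x‖ ≤ ε) ∧ ‖h x‖ ≤ r ∧ k i = h x :=
    fun i => hk i
  choose x hxE hosc hr hkx using hk'
  obtain ⟨z, L, hL⟩ := hE ι U x hxE
  have hlim : ∀ g : StrongDual ℝ Y, ∃ l : ℝ, Tendsto (fun i => g (k i)) U (𝓝 l) := by
    intro g
    have hcomp : IsCompact (Icc (-(‖g‖ * r)) (‖g‖ * r)) := isCompact_Icc
    obtain ⟨l, _, hl⟩ := hcomp.ultrafilter_le_nhds (U.map fun i => g (k i)) (by
      rw [le_principal_iff, Ultrafilter.mem_coe, Ultrafilter.mem_map]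
      refine Filter.univ_mem' (fun i => ?_)
      show g (k i) ∈ Icc (-(‖g‖ * r)) (‖g‖ * r)
      rw [mem_Icc, ← abs_le, hkx i]
      calc |g (h (x i))| = ‖g (h (x i))‖ := (Real.norm_eq_abs _).symm
        _ ≤ ‖g‖ * ‖h (x i)‖ := g.le_opNorm _
        _ ≤ ‖g‖ * r := mul_le_mul_of_nonneg_left (hr i) (norm_nonneg _))
    exact ⟨l, hl⟩
  choose L' hL' using hlim
  refine ⟨h z, L', fun g => ⟨hL' g, ?_⟩⟩
  apply le_of_forall_pos_le_add
  intro η hη
  obtain ⟨Φ, ρ, hρ, hΦ⟩ := hh g z η hη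
  obtain ⟨v, hv, hvΦ⟩ := helly (fun f => L f - f z)
    (by
      intro f g'
      have e := tendsto_nhds_unique (hL (f + g')).1 ((hL f).1.add (hL g').1)
      simp only [e, ContinuousLinearMap.add_apply]
      ring)
    (by
      intro t f
      have e := tendsto_nhds_unique (hL (t • f)).1 ((hL f).1.const_mul t)
      simp only [e, ContinuousLinearMap.smul_apply, smul_eq_mul]
      ring)
    hδ0 hδ (fun f => (hL f).2) Φ (half_pos hρ)
  have hev : ∀ᶠ i in (U : Filter ι), ∀ φ ∈ Φ, |φ (x i) - L φ| < ρ / 2 := by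
    rw [Filter.eventually_all_finset]
    intro φ _
    have h1 := (hL φ).1
    rw [Metric.tendsto_nhds] at h1
    have h2 := h1 (ρ / 2) (half_pos hρ)
    simpa only [Real.dist_eq] using h2
  have hev2 : ∀ᶠ i in (U : Filter ι), |g (k i) - g (h z)| ≤ η + ‖g‖ * ε := by
    filter_upwards [hev] with i hi
    have h1 : |g (h (x i - v)) - g (h z)| < η := by
      apply hΦ
      intro φ hφ
      have h2 := hi φ hφ
      have h3 := hvΦ φ hφ
      rw [map_sub]
      have e : φ (x i) - φ v - φ z = (φ (x i) - L φ) - (φ v - (L φ - φ z)) := by ring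
      rw [e]
      calc |(φ (x i) - L φ) - (φ v - (L φ - φ z))|
          ≤ |φ (x i) - L φ| + |φ v - (L φ - φ z)| := abs_sub _ _
        _ < ρ / 2 + ρ / 2 := add_lt_add h2 h3
        _ = ρ := by ring
    have h4 : ‖h (x i - v) - h (x i)‖ ≤ ε := by
      apply hosc i
      have e : x i - v - x i = -v := by abel
      rw [e, norm_neg]; exact hv
    have h5 : |g (h (x i)) - g (h (x i - v))| ≤ ‖g‖ * ε := by
      rw [← map_sub, ← Real.norm_eq_abs]
      refine (g.le_opNorm _).trans ?_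
      rw [norm_sub_rev]
      exact mul_le_mul_of_nonneg_left h4 (norm_nonneg _)
    rw [hkx i]
    calc |g (h (x i)) - g (h z)|
        ≤ |g (h (x i)) - g (h (x i - v))| + |g (h (x i - v)) - g (h z)| := abs_sub_le _ _ _
      _ ≤ ‖g‖ * ε + η := add_le_add h5 h1.le
      _ = η + ‖g‖ * ε := add_comm _ _
  have hlim2 : Tendsto (fun i => |g (k i) - g (h z)|) U (𝓝 |L' g - g (h z)|) :=
    ((hL' g).sub_const _).abs
  have h6 := le_of_tendsto hlim2 hev2
  linarith

end Pool.Agent.Helper755.WH
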