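import Pool.Agent.Helper755.WH.B
import Pool.Agent.Helper755.WH.E2
import Pool.Agent.Helper755.WH.F2

set_option autoImplicit false

namespace Pool.Agent.Helper755.WH

open Filter Topology Set

/-! ### TARGET (prove; put helper lemmas here, names ending in the job number) -/

theorem wwc_cont_9881 {X Y : Type} [NormedAddCommGroup X] [NormedSpace ℝ X]
    [NormedAddCommGroup Y] [NormedSpace ℝ Y] (h : X → Y) (hh : WWC h) (f : StrongDual ℝ Y) :
    Continuous fun x => f (h x) := by
  rw [continuous_iff_continuousAt]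
  intro x
  rw [Metric.continuousAt_iff']
  intro η hη
  obtain ⟨Φ, ρ, hρ, hΦ⟩ := hh f x η hη
  have h1 : ∀ᶠ x' in 𝓝 x, ∀ φ ∈ Φ, |φ x' - φ x| < ρ := by
    rw [Filter.eventually_all_finset]
    intro φ _
    have h2 : ContinuousAt (fun x' => φ x') x := φ.continuous.continuousAt
    have h3 := (Metric.continuousAt_iff'.1 h2) ρ hρ
    simpa [Real.dist_eq] using h3
  filter_upwards [h1] with x' hx'
  rw [Real.dist_eq]
  exact hΦ x' hx'

theorem dense_span_9881 {X Y : Type} [NormedAddCommGroup X] [NormedSpace ℝ X]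
    [NormedAddCommGroup Y] [NormedSpace ℝ Y] (h : X → Y) (hh : WWC h)
    (hs : Function.Surjective h) (D : Set X) (hD : Dense D) :
    closure ((Submodule.span ℝ (h '' D) : Submodule ℝ Y) : Set Y) = univ := by
  by_contra hcon
  obtain ⟨y, hy⟩ : ∃ y, y ∉ closure ((Submodule.span ℝ (h '' D) : Submodule ℝ Y) : Set Y) := by
    by_contra hc
    push Not at hc
    exact hcon (eq_univ_of_forall hc)
  have hconv : Convex ℝ (closure ((Submodule.span ℝ (h '' D) : Submodule ℝ Y) : Set Y)) :=
    (Submodule.convex _).closure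
  obtain ⟨f, u, hfu, huy⟩ := geometric_hahn_banach_closed_point hconv isClosed_closure hy
  have h0 : 0 < u := by
    have := hfu 0 (subset_closure (Submodule.zero_mem _))
    simpa using this
  have hz : ∀ a ∈ (Submodule.span ℝ (h '' D) : Submodule ℝ Y), f a = 0 := by
    intro a ha
    by_contra hne
    have h1 : (u / f a) • a ∈ (Submodule.span ℝ (h '' D) : Submodule ℝ Y) :=
      Submodule.smul_mem _ _ ha
    have h2 := hfu _ (subset_closure h1)
    rw [map_smul, smul_eq_mul, div_mul_cancel₀ _ hne] at h2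
    exact lt_irrefl _ h2
  have hc := wwc_cont_9881 h hh f
  have hzero : (fun x => f (h x)) = fun _ => (0 : ℝ) := by
    refine Continuous.ext_on hD hc continuous_const ?_
    intro x hx
    exact hz _ (Submodule.subset_span ⟨x, hx, rfl⟩)
  obtain ⟨x, hx⟩ := hs y
  have h3 : f y = 0 := by
    rw [← hx]
    exact congrFun hzero x
  rw [h3] at huy
  linarith

theorem cs_transfer {X Y : Type} [NormedAddCommGroup X] [NormedSpace ℝ X] [CompleteSpace X]
    [NormedAddCommGroup Y] [NormedSpace ℝ Y] (h : X → Y) (hh : WWC h)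
    (hs : Function.Surjective h) (hX : CS (univ : Set X)) : CS (univ : Set Y) := by
  have hnam := namioka h (wwc_cont_9881 h hh)
  have hδ : ∀ j : ℕ, (0 : ℝ) < 1 / (2 * ((j : ℝ) + 1)) := fun j => by positivity
  choose E hE1 hE2 using fun j : ℕ => hX (1 / (2 * ((j : ℝ) + 1))) (hδ j)
  have hstep : CS (h '' {x : X | ∀ ε : ℝ, 0 < ε → ∃ r : ℝ, 0 < r ∧ ∀ x' : X, dist x' x < r →
      ‖h x' - h x‖ ≤ ε}) := by
    intro ε hε
    refine ⟨fun n => {y : Y | ∃ x ∈ E n.unpair.1 n.unpair.2.unpair.1,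
      (∀ x', ‖x' - x‖ < 1 / ((n.unpair.1 : ℝ) + 1) → ‖h x' - h x‖ ≤ ε) ∧
        ‖h x‖ ≤ (n.unpair.2.unpair.2 : ℝ) ∧ y = h x}, ?_, ?_⟩
    · intro n
      refine class_ecw h hh (hδ n.unpair.1).le ?_ _ (hE1 _ _)
      apply one_div_lt_one_div_of_lt (by positivity)
      have : (0 : ℝ) < (n.unpair.1 : ℝ) + 1 := by positivity
      linarith
    · rintro _ ⟨x, hx, rfl⟩
      obtain ⟨r, hr, hxr⟩ := hx ε hε
      obtain ⟨j, hj⟩ := exists_nat_one_div_lt hr
      obtain ⟨m, hm⟩ := mem_iUnion.1 (hE2 j (mem_univ x))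
      obtain ⟨r₀, hr₀⟩ := exists_nat_ge ‖h x‖
      refine mem_iUnion.2 ⟨Nat.pair j (Nat.pair m r₀), x, ?_, ?_, ?_, rfl⟩
      · simpa using hm
      · intro x' hx'
        apply hxr
        rw [dist_eq_norm]
        simp only [Nat.unpair_pair] at hx'
        exact hx'.trans hj
      · simpa using hr₀
  have h2 := (hstep.span).closure
  rw [dense_span_9881 h hh hs _ hnam] at h2
  exact h2

end Pool.Agent.Helper755.WH
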