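import Pool.Agent.Helper755.WH.Defs

set_option autoImplicit false

namespace Pool.Agent.Helper755.WH

open Filter Topology Set

/-! ### TARGET (prove; put helper lemmas here, names ending in the job number) -/

section PtWeak
variable {T : Type} [TopologicalSpace T] [CompactSpace T]

/-- total variation of `μ` on nonnegative functions -/
noncomputable def Lam_9873 (μ : StrongDual ℝ C(T, ℝ)) (f : C(T, ℝ)) : ℝ :=
  sSup {r | ∃ g : C(T, ℝ), (∀ t, |g t| ≤ f t) ∧ r = μ g}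

theorem norm_le_9873 {f g : C(T, ℝ)} (h : ∀ t, |g t| ≤ f t) : ‖g‖ ≤ ‖f‖ := by
  rw [ContinuousMap.norm_le _ (norm_nonneg _)]
  intro t
  rw [Real.norm_eq_abs]
  exact (h t).trans ((le_abs_self _).trans (f.norm_coe_le_norm t))

theorem bdd_9873 (μ : StrongDual ℝ C(T, ℝ)) (f : C(T, ℝ)) :
    ∀ r ∈ {r | ∃ g : C(T, ℝ), (∀ t, |g t| ≤ f t) ∧ r = μ g}, r ≤ ‖μ‖ * ‖f‖ := by
  rintro r ⟨g, hg, rfl⟩
  calc μ g ≤ ‖μ g‖ := le_abs_self _
    _ ≤ ‖μ‖ * ‖g‖ := μ.le_opNorm g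
    _ ≤ ‖μ‖ * ‖f‖ := mul_le_mul_of_nonneg_left (norm_le_9873 hg) μ.opNorm_nonneg

theorem le_Lam_9873 (μ : StrongDual ℝ C(T, ℝ)) {f g : C(T, ℝ)} (h : ∀ t, |g t| ≤ f t) :
    μ g ≤ Lam_9873 μ f :=
  le_csSup ⟨_, bdd_9873 μ f⟩ ⟨g, h, rfl⟩

theorem abs_le_Lam_9873 (μ : StrongDual ℝ C(T, ℝ)) {f g : C(T, ℝ)} (h : ∀ t, |g t| ≤ f t) :
    |μ g| ≤ Lam_9873 μ f := by
  rw [abs_le']
  refine ⟨le_Lam_9873 μ h, ?_⟩
  rw [← map_neg]
  refine le_Lam_9873 μ fun t => ?_
  rw [ContinuousMap.neg_apply, abs_neg]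
  exact h t

theorem Lam_le_9873 (μ : StrongDual ℝ C(T, ℝ)) {f : C(T, ℝ)} (hf : ∀ t, 0 ≤ f t) {c : ℝ}
    (h : ∀ g : C(T, ℝ), (∀ t, |g t| ≤ f t) → μ g ≤ c) : Lam_9873 μ f ≤ c := by
  refine csSup_le ⟨μ 0, 0, fun t => ?_, rfl⟩ ?_
  · simpa using hf t
  · rintro r ⟨g, hg, rfl⟩
    exact h g hg

theorem Lam_mono_9873 (μ : StrongDual ℝ C(T, ℝ)) {f f' : C(T, ℝ)} (hf : ∀ t, 0 ≤ f t)
    (hff : ∀ t, f t ≤ f' t) : Lam_9873 μ f ≤ Lam_9873 μ f' :=
  Lam_le_9873 μ hf fun _ hg => le_Lam_9873 μ fun t => (hg t).trans (hff t)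

theorem Lam_le_norm_9873 (μ : StrongDual ℝ C(T, ℝ)) {f : C(T, ℝ)} (hf : ∀ t, 0 ≤ f t) :
    Lam_9873 μ f ≤ ‖μ‖ * ‖f‖ :=
  Lam_le_9873 μ hf fun g hg => bdd_9873 μ f _ ⟨g, hg, rfl⟩

theorem Lam_sub_9873 (μ : StrongDual ℝ C(T, ℝ)) {f f' : C(T, ℝ)} (hf : ∀ t, 0 ≤ f t)
    (hf' : ∀ t, 0 ≤ f' t) : Lam_9873 μ (f + f') ≤ Lam_9873 μ f + Lam_9873 μ f' := by
  refine Lam_le_9873 μ (fun t => add_nonneg (hf t) (hf' t)) fun g hg => ?_
  set g1 : C(T, ℝ) := (-f) ⊔ (g ⊓ f) with hg1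
  have e1 : ∀ t, g1 t = max (-(f t)) (min (g t) (f t)) := fun t => rfl
  have h1 : ∀ t, |g1 t| ≤ f t := by
    intro t
    rw [e1, abs_le]
    exact ⟨le_max_left _ _, max_le (by linarith [hf t]) (min_le_right _ _)⟩
  have h2 : ∀ t, |(g - g1) t| ≤ f' t := by
    intro t
    rw [ContinuousMap.sub_apply, e1]
    have h3 : |g t| ≤ f t + f' t := hg t
    rw [abs_le] at h3
    have h4 := hf t
    have h5 := hf' t
    rw [abs_le]
    rcases le_total (g t) (f t) with h6 | h6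
    · rw [min_eq_left h6]
      rcases le_total (-(f t)) (g t) with h7 | h7
      · rw [max_eq_right h7]; constructor <;> linarith
      · rw [max_eq_left h7]; constructor <;> linarith
    · rw [min_eq_right h6, max_eq_right (by linarith)]
      constructor <;> linarith
  have h3 : μ g = μ g1 + μ (g - g1) := by rw [← map_add, add_sub_cancel]
  rw [h3]
  exact add_le_add (le_Lam_9873 μ h1) (le_Lam_9873 μ h2)

theorem Lam_super_9873 (μ : StrongDual ℝ C(T, ℝ)) {f f' : C(T, ℝ)} (hf : ∀ t, 0 ≤ f t)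
    (hf' : ∀ t, 0 ≤ f' t) : Lam_9873 μ f + Lam_9873 μ f' ≤ Lam_9873 μ (f + f') := by
  have h1 : Lam_9873 μ f ≤ Lam_9873 μ (f + f') - Lam_9873 μ f' := by
    refine Lam_le_9873 μ hf fun g hg => ?_
    have h2 : Lam_9873 μ f' ≤ Lam_9873 μ (f + f') - μ g := by
      refine Lam_le_9873 μ hf' fun g' hg' => ?_
      have h3 : μ g + μ g' ≤ Lam_9873 μ (f + f') := by
        rw [← map_add]
        refine le_Lam_9873 μ fun t => ?_
        rw [ContinuousMap.add_apply, ContinuousMap.add_apply]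
        exact (abs_add_le _ _).trans (add_le_add (hg t) (hg' t))
      linarith
    linarith
  linarith

/-- running maximum of `v k`, `n ≤ k ≤ N` -/
noncomputable def W_9873 (v : ℕ → C(T, ℝ)) (n : ℕ) : ℕ → C(T, ℝ)
  | 0 => if n ≤ 0 then v 0 else 0
  | (N + 1) => W_9873 v n N ⊔ (if n ≤ N + 1 then v (N + 1) else 0)

theorem W_nonneg_9873 {v : ℕ → C(T, ℝ)} (hv : ∀ k t, 0 ≤ v k t) (n N : ℕ) (t : T) :
    0 ≤ W_9873 v n N t := by
  induction N with
  | zero =>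
    rw [W_9873]
    split_ifs
    · exact hv 0 t
    · exact le_refl _
  | succ N ih => exact ih.trans (le_max_left _ _)

theorem W_le_9873 {v : ℕ → C(T, ℝ)} {n N : ℕ} {t : T} {c : ℝ} (hc : 0 ≤ c)
    (h : ∀ k, k ≤ N → n ≤ k → v k t ≤ c) : W_9873 v n N t ≤ c := by
  induction N with
  | zero =>
    rw [W_9873]
    split_ifs with h0
    · exact h 0 le_rfl h0
    · exact hc
  | succ N ih =>
    refine max_le (ih fun k hk hk' => h k (by omega) hk') ?_
    split_ifs with h0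
    · exact h _ le_rfl h0
    · exact hc

theorem le_W_9873 {v : ℕ → C(T, ℝ)} {n N k : ℕ} (t : T) (hk : k ≤ N) (hn : n ≤ k) :
    v k t ≤ W_9873 v n N t := by
  induction N with
  | zero =>
    have hk0 : k = 0 := by omega
    subst hk0
    rw [W_9873, if_pos hn]
  | succ N ih =>
    rcases Nat.lt_or_ge k (N + 1) with h1 | h1
    · exact (ih (by omega)).trans (le_max_left _ _)
    · have hk1 : k = N + 1 := by omega
      subst hk1
      have : W_9873 v n (N + 1) = W_9873 v n N ⊔ v (N + 1) := by rw [W_9873, if_pos hn]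
      rw [this]
      exact le_max_right _ _

theorem W_mono_9873 {v : ℕ → C(T, ℝ)} (hv : ∀ k t, 0 ≤ v k t) {n n' N N' : ℕ} (hn : n' ≤ n)
    (hN : N ≤ N') (t : T) : W_9873 v n N t ≤ W_9873 v n' N' t :=
  W_le_9873 (W_nonneg_9873 hv _ _ _) fun k hk hk' =>
    le_W_9873 t (hk.trans hN) (hn.trans hk')

/-- running minimum -/
noncomputable def M_9873 (G : ℕ → C(T, ℝ)) : ℕ → C(T, ℝ)
  | 0 => G 0
  | (n + 1) => M_9873 G n ⊓ G (n + 1)

theorem M_le_9873 (G : ℕ → C(T, ℝ)) (n : ℕ) (t : T) : M_9873 G n t ≤ G n t := by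
  cases n with
  | zero => exact le_refl _
  | succ n => exact min_le_right _ _

theorem M_exists_9873 (G : ℕ → C(T, ℝ)) (n : ℕ) (t : T) : ∃ m, m ≤ n ∧ M_9873 G n t = G m t := by
  induction n with
  | zero => exact ⟨0, le_rfl, rfl⟩
  | succ n ih =>
    obtain ⟨m, hm, hm'⟩ := ih
    rcases min_choice (M_9873 G n t) (G (n + 1) t) with h1 | h1
    · exact ⟨m, by omega, h1.trans hm'⟩
    · exact ⟨n + 1, le_rfl, h1⟩

theorem M_anti_9873 (G : ℕ → C(T, ℝ)) : Antitone (M_9873 G) :=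
  antitone_nat_of_succ_le fun n t => min_le_left _ _

theorem Lam_sum_9873 (μ : StrongDual ℝ C(T, ℝ)) {f : C(T, ℝ)} (hf : ∀ t, 0 ≤ f t)
    (D : ℕ → C(T, ℝ)) (n : ℕ) (hD : ∀ m < n, ∀ t, 0 ≤ D m t) :
    Lam_9873 μ (f + ∑ m ∈ Finset.range n, D m) ≤
      Lam_9873 μ f + ∑ m ∈ Finset.range n, Lam_9873 μ (D m) := by
  induction n with
  | zero => simp
  | succ n ih =>
    rw [Finset.sum_range_succ, Finset.sum_range_succ, ← add_assoc, ← add_assoc]
    have h1 : ∀ t, 0 ≤ (f + ∑ m ∈ Finset.range n, D m) t := by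
      intro t
      rw [ContinuousMap.add_apply, ContinuousMap.coe_sum, Finset.sum_apply]
      exact add_nonneg (hf t) (Finset.sum_nonneg fun m hm =>
        hD m (by have := Finset.mem_range.1 hm; omega) t)
    have h2 := Lam_sub_9873 μ h1 (hD n (by omega))
    have h3 := ih fun m hm => hD m (by omega)
    linarith

/-- the sequence version -/
theorem seq_9873 (v : ℕ → C(T, ℝ)) (hv1 : ∀ k, ‖v k‖ ≤ 1) (hv : ∀ k t, 0 ≤ v k t)
    (hpt : ∀ t, Tendsto (fun k => v k t) atTop (𝓝 0)) (μ : StrongDual ℝ C(T, ℝ)) {e : ℝ}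
    (he : 0 < e) : ∃ n, Lam_9873 μ (v n) < e := by
  set L := Lam_9873 μ with hL
  have hW0 := fun n N t => W_nonneg_9873 (T := T) hv n N t
  have hWnorm : ∀ n N, ‖W_9873 v n N‖ ≤ 1 := by
    intro n N
    rw [ContinuousMap.norm_le _ zero_le_one]
    intro t
    rw [Real.norm_eq_abs, abs_of_nonneg (hW0 n N t)]
    refine W_le_9873 zero_le_one fun k _ _ => ?_
    exact (le_abs_self _).trans (((v k).norm_coe_le_norm t).trans (hv1 k))
  have hWL : ∀ n N, L (W_9873 v n N) ≤ ‖μ‖ := by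
    intro n N
    have h1 := Lam_le_norm_9873 μ (hW0 n N)
    have h2 : ‖μ‖ * ‖W_9873 v n N‖ ≤ ‖μ‖ * 1 :=
      mul_le_mul_of_nonneg_left (hWnorm n N) μ.opNorm_nonneg
    rw [mul_one] at h2
    exact h1.trans h2
  have hNf : ∀ m, ∃ N0, ∀ N, L (W_9873 v m N) ≤ L (W_9873 v m N0) + e / 8 / 2 ^ m := by
    intro m
    have hbdd : BddAbove (Set.range fun N => L (W_9873 v m N)) :=
      ⟨‖μ‖, by rintro _ ⟨N, rfl⟩; exact hWL m N⟩
    have hpos : 0 < e / 8 / 2 ^ m := by positivity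
    obtain ⟨N0, hN0⟩ := exists_lt_of_lt_ciSup
      (show (⨆ N, L (W_9873 v m N)) - e / 8 / 2 ^ m < ⨆ N, L (W_9873 v m N) by linarith)
    refine ⟨N0, fun N => ?_⟩
    have := le_ciSup hbdd N
    linarith
  choose Nf hNf using hNf
  set G : ℕ → C(T, ℝ) := fun m => W_9873 v m (Nf m) with hG
  -- Dini
  have hg0 : ∀ n t, 0 ≤ M_9873 G n t := by
    intro n t
    obtain ⟨m, _, hm⟩ := M_exists_9873 G n t
    rw [hm]
    exact hW0 _ _ _
  have hgt : Tendsto (M_9873 G) atTop (𝓝 0) := by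
    refine ContinuousMap.tendsto_of_antitone_of_pointwise (M_anti_9873 G) fun t => ?_
    rw [ContinuousMap.zero_apply, Metric.tendsto_atTop]
    intro δ hδ
    obtain ⟨K, hK⟩ := (Metric.tendsto_atTop.1 (hpt t)) (δ / 2) (by linarith)
    refine ⟨K, fun n hn => ?_⟩
    rw [Real.dist_eq, sub_zero, abs_of_nonneg (hg0 n t)]
    have h1 : M_9873 G n t ≤ δ / 2 := by
      refine (M_le_9873 G n t).trans (W_le_9873 (by linarith) fun k _ hk => ?_)
      have h2 := hK k (hn.trans hk)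
      rw [Real.dist_eq, sub_zero] at h2
      exact (le_abs_self _).trans h2.le
    linarith
  have hgn : Tendsto (fun n => ‖μ‖ * ‖M_9873 G n‖) atTop (𝓝 0) := by
    have h1 := (hgt.norm).const_mul ‖μ‖
    simpa using h1
  obtain ⟨n, hn⟩ := (hgn.eventually (gt_mem_nhds (show (0:ℝ) < e / 2 by linarith))).exists
  refine ⟨n, ?_⟩
  set N : ℕ := n + ∑ m ∈ Finset.range (n + 1), Nf m with hN
  have hNm : ∀ m ≤ n, Nf m ≤ N := by
    intro m hm
    have : Nf m ≤ ∑ m ∈ Finset.range (n + 1), Nf m :=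
      Finset.single_le_sum (f := Nf) (fun _ _ => Nat.zero_le _) (Finset.mem_range.2 (by omega))
    omega
  set D : ℕ → C(T, ℝ) := fun m => W_9873 v m N - W_9873 v m (Nf m) with hD
  have hD0 : ∀ m < n + 1, ∀ t, 0 ≤ D m t := by
    intro m hm t
    have := W_mono_9873 hv (le_refl m) (hNm m (by omega)) t
    show 0 ≤ W_9873 v m N t - W_9873 v m (Nf m) t
    linarith
  have hDL : ∀ m < n + 1, L (D m) ≤ e / 8 / 2 ^ m := by
    intro m hm
    have h1 := Lam_super_9873 μ (hW0 m (Nf m)) (hD0 m hm)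
    have h2 : W_9873 v m (Nf m) + D m = W_9873 v m N := by
      rw [hD]; exact add_sub_cancel _ _
    rw [h2] at h1
    have h3 := hNf m N
    linarith
  have hpt2 : ∀ t, W_9873 v n N t ≤ (M_9873 G n + ∑ m ∈ Finset.range (n + 1), D m) t := by
    intro t
    obtain ⟨m, hm, hm'⟩ := M_exists_9873 G n t
    rw [ContinuousMap.add_apply, ContinuousMap.coe_sum, Finset.sum_apply, hm']
    have h1 : D m t ≤ ∑ m ∈ Finset.range (n + 1), D m t :=
      Finset.single_le_sum (f := fun m => D m t)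
        (fun k hk => hD0 k (Finset.mem_range.1 hk) t) (Finset.mem_range.2 (by omega))
    have h2 : D m t = W_9873 v m N t - G m t := rfl
    have h3 := W_mono_9873 hv hm (le_refl N) t
    linarith
  have h1 : L (v n) ≤ L (W_9873 v n N) :=
    Lam_mono_9873 μ (hv n) fun t => le_W_9873 t (by omega) le_rfl
  have h2 : L (W_9873 v n N) ≤ L (M_9873 G n + ∑ m ∈ Finset.range (n + 1), D m) :=
    Lam_mono_9873 μ (hW0 n N) hpt2
  have h3 := Lam_sum_9873 μ (hg0 n) D (n + 1) hD0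
  have h4 := Lam_le_norm_9873 μ (hg0 n)
  have h5 : ∑ m ∈ Finset.range (n + 1), L (D m) ≤ e / 4 := by
    calc ∑ m ∈ Finset.range (n + 1), L (D m) ≤ ∑ m ∈ Finset.range (n + 1), e / 8 / 2 ^ m :=
          Finset.sum_le_sum fun m hm => hDL m (Finset.mem_range.1 hm)
      _ = e / 8 * ∑ m ∈ Finset.range (n + 1), (1 / 2 : ℝ) ^ m := by
          rw [Finset.mul_sum]
          refine Finset.sum_congr rfl fun m _ => ?_
          rw [one_div, inv_pow]
          rfl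
      _ ≤ e / 8 * 2 := by
          refine mul_le_mul_of_nonneg_left ?_ (by linarith)
          have h6 := Summable.sum_le_tsum (Finset.range (n + 1))
            (fun m _ => by positivity) summable_geometric_two
          rw [tsum_geometric_two] at h6
          exact h6
      _ = e / 4 := by ring
  linarith

end PtWeak

theorem pt_weak {T : Type} [TopologicalSpace T] [CompactSpace T] {Γ : Type} (u : Γ → C(T, ℝ))
    (hu : ∀ γ, ‖u γ‖ ≤ 1) (hfin : ∀ t : T, ∀ η : ℝ, 0 < η → {γ | η ≤ |u γ t|}.Finite)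
    (μ : StrongDual ℝ C(T, ℝ)) (η : ℝ) (hη : 0 < η) : {γ | η ≤ |μ (u γ)|}.Finite := by
  by_contra hinf
  have hinf' : {γ | η ≤ |μ (u γ)|}.Infinite := hinf
  set φ := hinf'.natEmbedding with hφ
  set v : ℕ → C(T, ℝ) := fun k => |u (φ k)| with hv
  have hvt : ∀ k t, v k t = |u (φ k) t| := fun k t => rfl
  have hinj : Function.Injective fun k => (φ k : Γ) :=
    Subtype.val_injective.comp φ.injective
  have hv1 : ∀ k, ‖v k‖ ≤ 1 := by
    intro k
    refine le_trans ?_ (hu (φ k))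
    rw [ContinuousMap.norm_le _ (norm_nonneg _)]
    intro t
    rw [hvt, Real.norm_eq_abs, abs_abs]
    exact (u (φ k)).norm_coe_le_norm t
  have hv0 : ∀ k t, 0 ≤ v k t := by
    intro k t
    rw [hvt]
    exact abs_nonneg _
  have hpt : ∀ t, Tendsto (fun k => v k t) atTop (𝓝 0) := by
    intro t
    rw [Metric.tendsto_atTop]
    intro δ hδ
    have hf0 : ((fun k => (φ k : Γ)) ⁻¹' {γ | δ ≤ |u γ t|}).Finite :=
      (hfin t δ hδ).preimage hinj.injOn
    have hf : {k : ℕ | δ ≤ |u (φ k) t|}.Finite := hf0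
    obtain ⟨K, hK⟩ := hf.bddAbove
    refine ⟨K + 1, fun n hn => ?_⟩
    rw [Real.dist_eq, sub_zero, hvt, abs_abs]
    by_contra hge
    push Not at hge
    have := hK (show n ∈ {k : ℕ | δ ≤ |u (φ k) t|} from hge)
    omega
  obtain ⟨n, hn⟩ := seq_9873 v hv1 hv0 hpt μ hη
  have h1 : η ≤ |μ (u (φ n))| := (φ n).2
  have h2 : |μ (u (φ n))| ≤ Lam_9873 μ (v n) :=
    abs_le_Lam_9873 μ fun t => le_of_eq (hvt n t).symm
  linarith

end Pool.Agent.Helper755.WH
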