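import Pool.Agent.Helper755.WH.Defs

set_option autoImplicit false

namespace Pool.Agent.Helper755.WH

open Filter Topology Set

/-! ### TARGET (prove; put helper lemmas here, names ending in the job number) -/

theorem wc_of_c0 {Z : Type} [NormedAddCommGroup Z] [NormedSpace ℝ Z] {Γ : Type} (x : Γ → Z)
    (hx : ∀ (f : StrongDual ℝ Z) (η : ℝ), 0 < η → {γ | η ≤ |f (x γ)|}.Finite) :
    IsCompact (toWeakSpace ℝ Z '' (insert 0 (range x))) := by
  have hinj : Function.Injective (topDualPairing ℝ Z).flip := by
    intro a b hab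
    by_contra hne
    obtain ⟨f, hf⟩ := SeparatingDual.exists_separating_of_ne (R := ℝ) hne
    exact hf (DFunLike.congr_fun hab f)
  have ht : Tendsto (fun γ => toWeakSpace ℝ Z (x γ)) cofinite (𝓝 (toWeakSpace ℝ Z 0)) := by
    refine (WeakBilin.tendsto_iff_forall_eval_tendsto (B := (topDualPairing ℝ Z).flip) hinj).2 ?_
    intro f
    show Tendsto (fun γ => f (x γ)) cofinite (𝓝 (f 0))
    rw [map_zero, Metric.tendsto_nhds]
    intro η hη
    rw [Filter.eventually_cofinite]
    refine (hx f η hη).subset ?_
    intro γ hγ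
    have h1 : ¬ dist (f (x γ)) 0 < η := hγ
    rw [dist_zero_right, Real.norm_eq_abs, not_lt] at h1
    exact h1
  have hc := ht.isCompact_insert_range_of_cofinite
  rw [Set.image_insert_eq, ← Set.range_comp]
  exact hc

end Pool.Agent.Helper755.WH
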