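import Pool.Agent.Helper755.WH.I1
import Pool.Agent.Helper755.WH.I2

set_option autoImplicit false

namespace Pool.Agent.Helper755.WH

open Filter Topology Set

/-! ### TARGET (prove; put helper lemmas here, names ending in the job number) -/

lemma prodle_9878 {T : Type} [TopologicalSpace T] [CompactSpace T] {I : Type}
    (u : I → C(T, ℝ)) (hu : ∀ i, ‖u i‖ ≤ 1) (t : T) (l : List I) :
    |(l.map u).prod t| ≤ 1 ∧ ∀ i ∈ l, |(l.map u).prod t| ≤ |u i t| := by
  have hu' : ∀ i, |u i t| ≤ 1 := fun i => ((u i).norm_coe_le_norm t).trans (hu i)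
  induction l with
  | nil => simp
  | cons j l ih =>
    have h1 : ((j :: l).map u).prod t = u j t * (l.map u).prod t := by
      simp [List.map_cons, List.prod_cons, ContinuousMap.mul_apply]
    rw [h1, abs_mul]
    refine ⟨mul_le_one₀ (hu' j) (abs_nonneg _) ih.1, ?_⟩
    intro i hi
    rcases List.mem_cons.mp hi with rfl | hi
    · calc |u i t| * |(l.map u).prod t| ≤ |u i t| * 1 :=
            mul_le_mul_of_nonneg_left ih.1 (abs_nonneg _)
        _ = |u i t| := mul_one _
    · calc |u j t| * |(l.map u).prod t| ≤ 1 * |u i t| :=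
            mul_le_mul (hu' j) (ih.2 i hi) (abs_nonneg _) zero_le_one
        _ = |u i t| := one_mul _

lemma finlist_9878 {I : Type} (F : Set I) (hF : F.Finite) (N : ℕ) :
    {l : List I | (∀ i ∈ l, i ∈ F) ∧ l.length ≤ N}.Finite := by
  haveI : Finite F := hF
  refine Set.Finite.subset ((List.finite_length_le F N).image (List.map Subtype.val)) ?_
  rintro l ⟨h1, h2⟩
  lift l to List F using h1
  refine ⟨l, ?_, rfl⟩
  simpa using h2

theorem wcg_of_sep {T : Type} [TopologicalSpace T] [CompactSpace T] {I : Type}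
    (u : I → C(T, ℝ)) (hu : ∀ i, ‖u i‖ ≤ 1)
    (hfin : ∀ t : T, ∀ η : ℝ, 0 < η → {i | η ≤ |u i t|}.Finite)
    (hsep : ∀ s t : T, s ≠ t → ∃ i, u i s ≠ u i t) : WCG C(T, ℝ) := by
  set w : List I → C(T, ℝ) := fun l => (1 / ((l.length : ℝ) + 1)) • (l.map u).prod with hw
  have hwt : ∀ l t, |w l t| = |(l.map u).prod t| / ((l.length : ℝ) + 1) := by
    intro l t
    have h0 : (0 : ℝ) < (l.length : ℝ) + 1 := by positivity
    simp only [hw, ContinuousMap.smul_apply, smul_eq_mul]
    rw [abs_mul, abs_of_pos (by positivity)]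
    ring
  have hw1 : ∀ l, ‖w l‖ ≤ 1 := by
    intro l
    rw [ContinuousMap.norm_le _ zero_le_one]
    intro t
    rw [Real.norm_eq_abs, hwt]
    have h0 : (1 : ℝ) ≤ (l.length : ℝ) + 1 := by
      have : (0 : ℝ) ≤ l.length := by positivity
      linarith
    exact (div_le_one₀ (by linarith)).mpr ((prodle_9878 u hu t l).1.trans h0)
  have hwf : ∀ t : T, ∀ η : ℝ, 0 < η → {l | η ≤ |w l t|}.Finite := by
    intro t η hη
    obtain ⟨N, hN⟩ := exists_nat_ge (1 / η)
    refine Set.Finite.subset (finlist_9878 {i | η ≤ |u i t|} (hfin t η hη) N) ?_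
    intro l hl
    have hl' : η ≤ |w l t| := hl
    rw [hwt] at hl'
    have h0 : (0 : ℝ) < (l.length : ℝ) + 1 := by positivity
    rw [le_div_iff₀ h0] at hl'
    have hp := prodle_9878 u hu t l
    refine ⟨?_, ?_⟩
    · intro i hi
      have h1 : η ≤ η * ((l.length : ℝ) + 1) := by
        have : (0 : ℝ) ≤ l.length := by positivity
        nlinarith
      exact (h1.trans hl').trans (hp.2 i hi)
    · have h1 : η * ((l.length : ℝ) + 1) ≤ 1 := hl'.trans hp.1
      have h2 : (l.length : ℝ) + 1 ≤ 1 / η := by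
        rw [le_div_iff₀ hη]
        linarith
      have h3 : (l.length : ℝ) ≤ N := by linarith
      exact_mod_cast h3
  refine ⟨insert 0 (range w), wc_of_c0 w (fun f η hη => pt_weak w hw1 hwf f η hη), ?_⟩
  have hSW := ContinuousMap.subalgebra_topologicalClosure_eq_top_of_separatesPoints
    (Algebra.adjoin ℝ (range u)) (by
      intro s t hst
      obtain ⟨i, hi⟩ := hsep s t hst
      exact ⟨u i, ⟨u i, Algebra.subset_adjoin ⟨i, rfl⟩, rfl⟩, hi⟩)
  have hd : Dense ((Algebra.adjoin ℝ (range u) : Subalgebra ℝ C(T, ℝ)) : Set C(T, ℝ)) := by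
    rw [dense_iff_closure_eq, ← Subalgebra.topologicalClosure_coe, hSW]
    rfl
  refine hd.mono ?_
  have hsub : Subalgebra.toSubmodule (Algebra.adjoin ℝ (range u)) ≤
      Submodule.span ℝ (insert 0 (range w)) := by
    rw [Algebra.adjoin_eq_span, Submodule.span_le]
    intro x hx
    obtain ⟨l, hl, rfl⟩ := Submonoid.exists_list_of_mem_closure hx
    have hl2 : ∃ l' : List I, l'.map u = l := by
      have h1 : ∀ y ∈ l, ∃ i, u i = y := hl
      clear hl hx
      induction l with
      | nil => exact ⟨[], rfl⟩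
      | cons a l ih =>
        obtain ⟨l', hl'⟩ := ih (fun y hy => h1 y (List.mem_cons_of_mem _ hy))
        obtain ⟨i, hi⟩ := h1 a List.mem_cons_self
        exact ⟨i :: l', by simp [hl', hi]⟩
    obtain ⟨l', rfl⟩ := hl2
    have h3 : (l'.map u).prod = ((l'.length : ℝ) + 1) • w l' := by
      have h0 : (0 : ℝ) < (l'.length : ℝ) + 1 := by positivity
      simp only [hw]
      rw [smul_smul, mul_one_div_cancel h0.ne', one_smul]
    rw [SetLike.mem_coe, h3]
    exact Submodule.smul_mem _ _ (Submodule.subset_span (Set.mem_insert_of_mem _ ⟨l', rfl⟩))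
  intro x hx
  exact hsub hx

end Pool.Agent.Helper755.WH
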