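import Pool.Agent.Helper755.WH.I3

set_option autoImplicit false

namespace Pool.Agent.Helper755.WH

open Filter Topology Set

/-! ### TARGET (prove; put helper lemmas here, names ending in the job number) -/

/-- soft threshold -/
noncomputable def tau_9877 (a s : ℝ) : ℝ := s - max (-a) (min a s)

theorem tau_cont_9877 (a : ℝ) : Continuous (tau_9877 a) := by
  unfold tau_9877; fun_prop

theorem tau_le_9877 {a : ℝ} (ha : 0 ≤ a) (s : ℝ) : |tau_9877 a s| ≤ |s| := by
  unfold tau_9877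
  rcases le_total a s with h | h
  · rw [min_eq_left h, max_eq_right (by linarith), abs_of_nonneg (by linarith), abs_of_nonneg (by linarith)]
    linarith
  · rw [min_eq_right h]
    rcases le_total (-a) s with h' | h'
    · rw [max_eq_right h', sub_self, abs_zero]; exact abs_nonneg _
    · rw [max_eq_left h', abs_of_nonpos (by linarith), abs_of_nonpos (by linarith)]
      linarith

theorem tau_ne_9877 {a : ℝ} (ha : 0 ≤ a) {s : ℝ} (hs : tau_9877 a s ≠ 0) : a < |s| := by
  by_contra hcon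
  push Not at hcon
  apply hs
  rw [abs_le] at hcon
  unfold tau_9877
  rw [min_eq_right hcon.2, max_eq_right hcon.1, sub_self]

theorem tau_inj_9877 {a : ℝ} (ha : 0 ≤ a) {s s' : ℝ} (h : tau_9877 a s = tau_9877 a s') (hne : s ≠ s') :
    |s| ≤ a ∧ |s'| ≤ a := by
  unfold tau_9877 at h
  rcases lt_or_ge a s with h1 | h1 <;> rcases lt_or_ge a s' with h2 | h2
  · rw [min_eq_left h1.le, min_eq_left h2.le, max_eq_right (by linarith)] at h
    exact absurd (by linarith) hne
  · rw [min_eq_left h1.le, min_eq_right h2, max_eq_right (by linarith)] at h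
    have := le_max_right (-a) s'
    linarith
  · rw [min_eq_right h1, min_eq_left h2.le, max_eq_right (a := -a) (b := a) (by linarith)] at h
    have := le_max_right (-a) s
    linarith
  · rw [min_eq_right h1, min_eq_right h2] at h
    rcases lt_or_ge s (-a) with h3 | h3 <;> rcases lt_or_ge s' (-a) with h4 | h4
    · rw [max_eq_left h3.le, max_eq_left h4.le] at h
      exact absurd (by linarith) hne
    · rw [max_eq_left h3.le, max_eq_right h4] at h
      linarith
    · rw [max_eq_right h3, max_eq_left h4.le] at h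
      linarith
    · exact ⟨abs_le.2 ⟨h3, h1⟩, abs_le.2 ⟨h4, h2⟩⟩

/-- dual unit ball in the weak-star topology -/
abbrev TB_9877 (Y : Type) [NormedAddCommGroup Y] [NormedSpace ℝ Y] : Type :=
  {f : WeakDual ℝ Y // f ∈ (WeakDual.toStrongDual ⁻¹' Metric.closedBall (0 : StrongDual ℝ Y) 1 : Set (WeakDual ℝ Y))}

instance compTB_9877 (Y : Type) [NormedAddCommGroup Y] [NormedSpace ℝ Y] : CompactSpace (TB_9877 Y) :=
  isCompact_iff_compactSpace.1 (WeakDual.isCompact_closedBall (0 : StrongDual ℝ Y) 1)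

section
variable {Y : Type} [NormedAddCommGroup Y] [NormedSpace ℝ Y]

theorem tb_norm_9877 (t : TB_9877 Y) : ‖WeakDual.toStrongDual t.1‖ ≤ 1 := by
  have := t.2
  rw [Set.mem_preimage, mem_closedBall_zero_iff] at this
  exact this

theorem tb_le_9877 (t : TB_9877 Y) (y : Y) : |t.1 y| ≤ ‖y‖ := by
  have h1 := (WeakDual.toStrongDual t.1).le_of_opNorm_le (tb_norm_9877 t) y
  rw [one_mul] at h1
  exact h1

theorem ev_cont_9877 (y : Y) : Continuous (fun t : TB_9877 Y => t.1 y) :=
  (WeakDual.eval_continuous y).comp continuous_subtype_val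

/-- the functions -/
noncomputable def u_9877 {Γ : Type} (y : Γ → Y) (c : ℕ → Γ → ℕ) (i : Γ × ℕ) : C(TB_9877 Y, ℝ) :=
  ⟨fun t => (1 / (((i.2 : ℝ) + 1) * ((c i.2 i.1 : ℝ) + 1))) * tau_9877 (1 / ((i.2 : ℝ) + 1)) (t.1 (y i.1)),
    continuous_const.mul ((tau_cont_9877 _).comp (ev_cont_9877 _))⟩

theorem u_apply_9877 {Γ : Type} (y : Γ → Y) (c : ℕ → Γ → ℕ) (i : Γ × ℕ) (t : TB_9877 Y) :
    u_9877 y c i t = (1 / (((i.2 : ℝ) + 1) * ((c i.2 i.1 : ℝ) + 1))) *
      tau_9877 (1 / ((i.2 : ℝ) + 1)) (t.1 (y i.1)) := rfl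

theorem u_bd_9877 {Γ : Type} (y : Γ → Y) (hy : ∀ g, ‖y g‖ ≤ 1) (c : ℕ → Γ → ℕ) (i : Γ × ℕ) (t : TB_9877 Y) :
    |u_9877 y c i t| ≤ 1 / (((i.2 : ℝ) + 1) * ((c i.2 i.1 : ℝ) + 1)) := by
  rw [u_apply_9877, abs_mul, abs_of_nonneg (by positivity)]
  have h1 : |tau_9877 (1 / ((i.2 : ℝ) + 1)) (t.1 (y i.1))| ≤ 1 :=
    ((tau_le_9877 (by positivity) _).trans (tb_le_9877 t _)).trans (hy _)
  have h2 : 0 ≤ 1 / (((i.2 : ℝ) + 1) * ((c i.2 i.1 : ℝ) + 1)) := by positivity
  nlinarith

theorem wcg_9877 (hY : TF Y (univ : Set Y)) : WCG C(TB_9877 Y, ℝ) := by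
  obtain ⟨Γ, y, -, hy, hF, hspan⟩ := hY
  have hF' : ∀ p : ℕ, ∃ c : Γ → ℕ, ∀ f : StrongDual ℝ Y, ‖f‖ ≤ 1 → ∀ n : ℕ,
      {γ | c γ = n ∧ 1 / ((p : ℝ) + 1) < |f (y γ)|}.Finite := fun p => hF _ (by positivity)
  choose c hc using hF'
  refine wcg_of_sep (I := Γ × ℕ) (u_9877 y c) ?_ ?_ ?_
  · intro i
    rw [ContinuousMap.norm_le _ zero_le_one]
    intro t
    rw [Real.norm_eq_abs]
    refine (u_bd_9877 y hy c i t).trans ?_
    rw [div_le_one (by positivity)]
    have h1 : (0:ℝ) ≤ i.2 := Nat.cast_nonneg _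
    have h2 : (0:ℝ) ≤ c i.2 i.1 := Nat.cast_nonneg _
    nlinarith [mul_nonneg h1 h2]
  · intro t η hη
    obtain ⟨N, hN⟩ := exists_nat_gt (1 / η)
    have hsub : {i : Γ × ℕ | η ≤ |u_9877 y c i t|} ⊆
        ⋃ p ∈ Finset.range N, ⋃ n ∈ Finset.range N,
          (fun g : Γ => (g, p)) '' {g | c p g = n ∧ 1 / ((p : ℝ) + 1) < |(WeakDual.toStrongDual t.1) (y g)|} := by
      rintro ⟨g, p⟩ hi
      have hi' : η ≤ |u_9877 y c (g, p) t| := hi
      have hbd := hi'.trans (u_bd_9877 y hy c (g, p) t)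
      simp only at hbd
      have hp0 : (0:ℝ) ≤ p := Nat.cast_nonneg _
      have hc0 : (0:ℝ) ≤ c p g := Nat.cast_nonneg _
      have hprod : ((p : ℝ) + 1) * ((c p g : ℝ) + 1) ≤ 1 / η := by
        rw [le_div_iff₀ hη]
        rw [le_div_iff₀ (by positivity)] at hbd
        linarith
      have hpN : p < N := by
        have : (p:ℝ) < N := by nlinarith [mul_nonneg hp0 hc0]
        exact_mod_cast this
      have hcN : c p g < N := by
        have : (c p g:ℝ) < N := by nlinarith [mul_nonneg hp0 hc0]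
        exact_mod_cast this
      have htau : tau_9877 (1 / ((p : ℝ) + 1)) (t.1 (y g)) ≠ 0 := by
        intro h0
        rw [u_apply_9877] at hi'
        simp only at hi'
        rw [h0, mul_zero, abs_zero] at hi'
        linarith
      simp only [Set.mem_iUnion, Finset.mem_range]
      refine ⟨p, hpN, c p g, hcN, g, ⟨rfl, ?_⟩, rfl⟩
      exact tau_ne_9877 (by positivity) htau
    refine Set.Finite.subset ?_ hsub
    refine Set.Finite.biUnion (Finset.finite_toSet _) (fun p _ => ?_)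
    refine Set.Finite.biUnion (Finset.finite_toSet _) (fun n _ => ?_)
    exact (hc p _ (tb_norm_9877 t) n).image _
  · intro s t hst
    obtain ⟨g, hg⟩ : ∃ g, s.1 (y g) ≠ t.1 (y g) := by
      by_contra hcon
      push Not at hcon
      apply hst
      apply Subtype.ext
      have hd : Dense ((Submodule.span ℝ (range y) : Submodule ℝ Y) : Set Y) := by
        rw [dense_iff_closure_eq]
        exact Set.eq_univ_of_univ_subset hspan
      have h1 : WeakDual.toStrongDual s.1 = WeakDual.toStrongDual t.1 := by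
        refine ContinuousLinearMap.ext_on hd ?_
        rintro _ ⟨g, rfl⟩
        exact hcon g
      exact WeakDual.toStrongDual.injective h1
    have hpos : 0 < max |s.1 (y g)| |t.1 (y g)| := by
      rw [lt_max_iff]
      by_contra hcon
      push Not at hcon
      have h1 : s.1 (y g) = 0 := abs_nonpos_iff.1 hcon.1
      have h2 : t.1 (y g) = 0 := abs_nonpos_iff.1 hcon.2
      exact hg (h1.trans h2.symm)
    obtain ⟨p, hp⟩ := exists_nat_one_div_lt hpos
    refine ⟨(g, p), ?_⟩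
    intro heq
    rw [u_apply_9877, u_apply_9877] at heq
    have hne : (1 / (((p : ℝ) + 1) * ((c p g : ℝ) + 1))) ≠ 0 := by positivity
    have h3 := mul_left_cancel₀ hne heq
    have h4 := tau_inj_9877 (by positivity) h3 hg
    have h5 : max |s.1 (y g)| |t.1 (y g)| ≤ 1 / ((p:ℝ) + 1) := max_le h4.1 h4.2
    linarith

/-- the embedding -/
noncomputable def J_9877 (Y : Type) [NormedAddCommGroup Y] [NormedSpace ℝ Y] : Y →L[ℝ] C(TB_9877 Y, ℝ) :=
  LinearMap.mkContinuous
    { toFun := fun y => ⟨fun t => t.1 y, ev_cont_9877 y⟩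
      map_add' := fun y z => by
        ext t
        show t.1 (y + z) = t.1 y + t.1 z
        exact map_add (WeakDual.toStrongDual t.1) y z
      map_smul' := fun r y => by
        ext t
        show t.1 (r • y) = r * t.1 y
        exact map_smul (WeakDual.toStrongDual t.1) r y } 1 (by
      intro y
      rw [one_mul, ContinuousMap.norm_le _ (norm_nonneg _)]
      intro t
      exact tb_le_9877 t y)

theorem J_apply_9877 (y : Y) (t : TB_9877 Y) : J_9877 Y y t = t.1 y := rfl

end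

theorem embed_of_tf (Y : Type) [NormedAddCommGroup Y] [NormedSpace ℝ Y]
    (hY : TF Y (univ : Set Y)) :
    ∃ (Z : Type) (_ : NormedAddCommGroup Z) (_ : NormedSpace ℝ Z) (_ : CompleteSpace Z),
        (∃ K : Set Z, IsCompact (toWeakSpace ℝ Z '' K) ∧
          Dense (Submodule.span ℝ K : Set Z)) ∧
        ∃ T : Y →L[ℝ] Z, ∃ c : ℝ, 0 < c ∧ ∀ y : Y, c * ‖y‖ ≤ ‖T y‖ := by
  refine ⟨C(TB_9877 Y, ℝ), inferInstance, inferInstance, inferInstance, wcg_9877 hY, J_9877 Y, 1, one_pos, ?_⟩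
  intro y
  rw [one_mul]
  obtain ⟨g, hg1, hg2⟩ := exists_dual_vector'' ℝ y
  have hmem : StrongDual.toWeakDual g ∈
      (WeakDual.toStrongDual ⁻¹' Metric.closedBall (0 : StrongDual ℝ Y) 1 : Set (WeakDual ℝ Y)) := by
    rw [Set.mem_preimage, mem_closedBall_zero_iff]
    exact hg1
  have h1 := (J_9877 Y y).norm_coe_le_norm ⟨StrongDual.toWeakDual g, hmem⟩
  have h2 : J_9877 Y y ⟨StrongDual.toWeakDual g, hmem⟩ = g y := rfl
  rw [h2, hg2] at h1
  simpa using h1

end Pool.Agent.Helper755.WH
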