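import Pool.Agent.Helper755.WH.Defs

set_option autoImplicit false

namespace Pool.Agent.Helper755.WH

open Filter Topology Set

/-! ### TARGET (prove; put helper lemmas here, names ending in the job number) -/

theorem topo_eq_9884 (X : Type) [NormedAddCommGroup X] [NormedSpace ℝ X] :
    (inferInstance : TopologicalSpace (WeakSpace ℝ X)) =
      TopologicalSpace.induced
        (fun (x : WeakSpace ℝ X) (y : StrongDual ℝ X) => y ((toWeakSpace ℝ X).symm x))
        Pi.topologicalSpace := rfl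

theorem cont_eval_9884 (X : Type) [NormedAddCommGroup X] [NormedSpace ℝ X]
    (f : StrongDual ℝ X) :
    Continuous (fun x : WeakSpace ℝ X => f ((toWeakSpace ℝ X).symm x)) :=
  WeakBilin.eval_continuous (topDualPairing ℝ X).flip f

theorem basic_9884 (X : Type) [NormedAddCommGroup X] [NormedSpace ℝ X] (x : X)
    (U : Set (WeakSpace ℝ X)) (hU : U ∈ 𝓝 (toWeakSpace ℝ X x)) :
    ∃ (Φ : Finset (StrongDual ℝ X)) (ρ : ℝ), 0 < ρ ∧
      ∀ x' : X, (∀ φ ∈ Φ, |φ x' - φ x| < ρ) → toWeakSpace ℝ X x' ∈ U := by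
  have h1 : 𝓝 (toWeakSpace ℝ X x) = Filter.comap
      (fun (x : WeakSpace ℝ X) (y : StrongDual ℝ X) => y ((toWeakSpace ℝ X).symm x))
      (𝓝 (fun y : StrongDual ℝ X => y x)) :=
    nhds_induced (fun (x : WeakSpace ℝ X) (y : StrongDual ℝ X) => y ((toWeakSpace ℝ X).symm x))
      (toWeakSpace ℝ X x)
  rw [h1, Filter.mem_comap] at hU
  obtain ⟨V, hV, hVU⟩ := hU
  rw [nhds_pi, Filter.mem_pi] at hV
  obtain ⟨I, hI, t, ht, htV⟩ := hV
  choose r hr hrt using fun i => Metric.mem_nhds_iff.1 (ht i)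
  have hρ : ∃ ρ : ℝ, 0 < ρ ∧ ∀ i ∈ I, ρ ≤ r i := by
    rcases I.eq_empty_or_nonempty with h | h
    · exact ⟨1, one_pos, fun i hi => by rw [h] at hi; exact absurd hi (notMem_empty i)⟩
    · obtain ⟨a, _, hmin⟩ := Set.exists_min_image I r hI h
      exact ⟨r a, hr a, hmin⟩
  obtain ⟨ρ, hρ0, hρr⟩ := hρ
  refine ⟨hI.toFinset, ρ, hρ0, fun x' hx' => hVU (htV fun i hi => hrt i ?_)⟩
  have h2 := hx' i (hI.mem_toFinset.2 hi)
  rw [Metric.mem_ball, Real.dist_eq]
  exact h2.trans_le (hρr i hi)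

theorem wwc_of_homeo {X Y : Type} [NormedAddCommGroup X] [NormedSpace ℝ X]
    [NormedAddCommGroup Y] [NormedSpace ℝ Y] (h : WeakSpace ℝ X ≃ₜ WeakSpace ℝ Y) :
    WWC (fun x : X => (toWeakSpace ℝ Y).symm (h (toWeakSpace ℝ X x))) := by
  intro f x η hη
  have hc : Continuous (fun w : WeakSpace ℝ X => f ((toWeakSpace ℝ Y).symm (h w))) :=
    (cont_eval_9884 Y f).comp h.continuous
  have hU : {w : WeakSpace ℝ X | |f ((toWeakSpace ℝ Y).symm (h w)) -
      f ((toWeakSpace ℝ Y).symm (h (toWeakSpace ℝ X x)))| < η} ∈ 𝓝 (toWeakSpace ℝ X x) := by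
    have hc2 : Continuous (fun w : WeakSpace ℝ X => |f ((toWeakSpace ℝ Y).symm (h w)) -
      f ((toWeakSpace ℝ Y).symm (h (toWeakSpace ℝ X x)))|) := (hc.sub continuous_const).abs
    refine (isOpen_lt hc2 continuous_const).mem_nhds ?_
    show |f ((toWeakSpace ℝ Y).symm (h (toWeakSpace ℝ X x))) -
      f ((toWeakSpace ℝ Y).symm (h (toWeakSpace ℝ X x)))| < η
    rw [sub_self, abs_zero]
    exact hη
  obtain ⟨Φ, ρ, hρ, hΦ⟩ := basic_9884 X x _ hU
  exact ⟨Φ, ρ, hρ, fun x' hx' => hΦ x' hx'⟩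

end Pool.Agent.Helper755.WH
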