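import Pool.Agent.Helper755.WH.Proj

set_option autoImplicit false

namespace Pool.Agent.Helper755.WH

open Filter Topology Set Cardinal

theorem mk_Iic_lt {κ : Cardinal.{0}} (hκ : ℵ₀ < κ) (i : κ.ord.ToType) : #(Iic i) < κ := by
  have h1 : #(Iio i) < κ := by simpa using mk_Iio_lt i
  have h2 : Iic i = insert i (Iio i) := by
    ext j; simp [le_iff_eq_or_lt]
  rw [h2]
  refine (mk_insert_le).trans_lt ?_
  exact add_lt_of_lt hκ.le h1 (one_lt_aleph0.trans hκ)

/-- The finiteness argument. -/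
theorem finite_blocks {X : Type} [NormedAddCommGroup X] [NormedSpace ℝ X]
    {H : Set X} {δ : ℝ} (hH : ECW δ H) (hδ : 0 ≤ δ) {I : Type} [LinearOrder I] [WellFoundedLT I]
    (Lo Hi : I → X →L[ℝ] X) (hnorm : ∀ i x, ‖Lo i x‖ ≤ ‖x‖)
    (hLL : ∀ i j, i ≤ j → ∀ x, Lo i (Lo j x) = Lo i x)
    (hLH : ∀ i j, i ≤ j → ∀ x, Lo i (Hi j x) = Lo i x)
    (hLH' : ∀ i j, i < j → ∀ x, Lo j (Hi i x) = Hi i x)
    (hLL' : ∀ i j, i ≤ j → ∀ x, Lo j (Lo i x) = Lo i x)
    {Γ : I → Type} (x : ∀ i, Γ i → X)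
    (hxQ : ∀ i γ, Hi i (x i γ) - Lo i (x i γ) = x i γ) (f : StrongDual ℝ X) (hf : ‖f‖ ≤ 1)
    (ε : ℝ) (hε : 4 * δ < ε) :
    {i | ∃ γ, x i γ ∈ H ∧ ε < |f (x i γ)|}.Finite := by
  by_contra hcon
  have hinf : {i | ∃ γ, x i γ ∈ H ∧ ε < |f (x i γ)|}.Infinite := hcon
  set e := hinf.natEmbedding with he
  obtain ⟨g, hg⟩ := exists_increasing_or_nonincreasing_subseq (· < ·) (fun n => (e n : I))
  have hmono : StrictMono fun n => (e (g n) : I) := by
    rcases hg with hg | hg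
    · exact fun m n h => hg m n h
    · exfalso
      have h1 : ∀ m n : ℕ, m < n → (e (g n) : I) < e (g m) := by
        intro m n hmn
        have h2 := hg m n hmn
        refine lt_of_le_of_ne (not_lt.mp h2) ?_
        intro h3
        have h4 := e.injective (Subtype.ext h3)
        have h5 := g.injective h4
        omega
      obtain ⟨i, ⟨n, rfl⟩, hi⟩ := (wellFounded_lt (α := I)).has_min
        (range fun n => (e (g n) : I)) (range_nonempty _)
      exact hi _ ⟨n + 1, rfl⟩ (h1 n (n + 1) (Nat.lt_succ_self n))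
  set i : ℕ → I := fun n => (e (g n) : I) with hi
  have hγ : ∀ n, ∃ γ, x (i n) γ ∈ H ∧ ε < |f (x (i n) γ)| := fun n => (e (g n)).2
  choose γ hγH hγ using hγ
  set z : ℕ → X := fun n => x (i n) (γ n) with hz
  obtain ⟨y, L, hy⟩ := hH ℕ (hyperfilter ℕ) z (fun n => hγH n)
  have hzQ : ∀ n, Hi (i n) (z n) - Lo (i n) (z n) = z n := fun n => hxQ _ _
  have ha : ∀ m, ‖Lo (i m) y‖ ≤ δ := by
    intro m
    obtain ⟨φ, hφ1, hφ2⟩ := exists_dual_vector'' ℝ (Lo (i m) y)
    have h1 := (hy (φ.comp (Lo (i m)))).1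
    have h2 : ∀ᶠ n in (hyperfilter ℕ : Filter ℕ), (φ.comp (Lo (i m))) (z n) = 0 := by
      apply Nat.hyperfilter_le_atTop
      filter_upwards [eventually_ge_atTop m] with n hn
      have h3 : i m ≤ i n := hmono.monotone hn
      rw [ContinuousLinearMap.comp_apply, ← hzQ n, map_sub, hLH _ _ h3, hLL _ _ h3, sub_self,
        map_zero]
    have h3 : Tendsto (fun n => (φ.comp (Lo (i m))) (z n)) (hyperfilter ℕ) (𝓝 0) :=
      tendsto_const_nhds.congr' (h2.mono fun n hn => hn.symm)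
    have h4 : L (φ.comp (Lo (i m))) = 0 := tendsto_nhds_unique h1 h3
    have h5 := (hy (φ.comp (Lo (i m)))).2
    have h6 : ‖φ.comp (Lo (i m))‖ ≤ 1 := by
      refine ContinuousLinearMap.opNorm_le_bound _ zero_le_one fun x => ?_
      rw [ContinuousLinearMap.comp_apply]
      calc ‖φ (Lo (i m) x)‖ ≤ ‖φ‖ * ‖Lo (i m) x‖ := φ.le_opNorm _
        _ ≤ 1 * ‖x‖ := by
          gcongr
          exact hnorm _ _
    rw [h4, zero_sub, abs_neg, ContinuousLinearMap.comp_apply, hφ2] at h5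
    have h7 : |((‖Lo (i m) y‖ : ℝ))| = ‖Lo (i m) y‖ := abs_of_nonneg (norm_nonneg _)
    have h8 : ‖Lo (i m) y‖ ≤ δ * ‖φ.comp (Lo (i m))‖ := by
      rw [← h7]; exact h5
    exact h8.trans (by nlinarith)
  let Z₀ : Submodule ℝ X :=
    { carrier := {w | ∃ m, Lo (i m) w = w}
      zero_mem' := ⟨0, map_zero _⟩
      add_mem' := by
        rintro v w ⟨m, hm⟩ ⟨n, hn⟩
        refine ⟨max m n, ?_⟩
        have h1 : Lo (i (max m n)) v = v := by
          rw [← hm, hLL' _ _ (hmono.monotone (le_max_left m n))]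
        have h2 : Lo (i (max m n)) w = w := by
          rw [← hn, hLL' _ _ (hmono.monotone (le_max_right m n))]
        rw [map_add, h1, h2]
      smul_mem' := by
        rintro c w ⟨m, hm⟩
        exact ⟨m, by rw [map_smul, hm]⟩ }
  have hzZ : ∀ n, z n ∈ Z₀ := by
    intro n
    refine ⟨n + 1, ?_⟩
    have h1 : i n < i (n + 1) := hmono (Nat.lt_succ_self n)
    rw [← hzQ n, map_sub, hLH' _ _ h1, hLL' _ _ h1.le]
  have hyn : ‖y‖ ≤ 3 * δ := by
    refine le_of_forall_pos_le_add fun η hη => ?_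
    obtain ⟨w, ⟨m, hw⟩, hyw⟩ := dist_le_functional Z₀ y (δ := δ) (r := δ + η / 2) (by linarith)
      (fun φ hφ => by
        have h1 := (hy φ).1
        have h2 : ∀ n, φ (z n) = 0 := fun n => hφ _ (hzZ n)
        simp only [h2] at h1
        have h3 : L φ = 0 := tendsto_nhds_unique h1 tendsto_const_nhds
        have h4 := (hy φ).2
        rwa [h3, zero_sub, abs_neg] at h4) hδ
    have h1 : ‖w‖ ≤ ‖y - w‖ + δ := by
      have h2 : w = Lo (i m) (w - y) + Lo (i m) y := by rw [← map_add, sub_add_cancel, hw]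
      calc ‖w‖ = ‖Lo (i m) (w - y) + Lo (i m) y‖ := by rw [← h2]
        _ ≤ ‖Lo (i m) (w - y)‖ + ‖Lo (i m) y‖ := norm_add_le _ _
        _ ≤ ‖y - w‖ + δ := by
          rw [norm_sub_rev y w]
          exact add_le_add (hnorm _ _) (ha m)
    have h2 : ‖y‖ ≤ ‖y - w‖ + ‖w‖ := by
      calc ‖y‖ = ‖(y - w) + w‖ := by rw [sub_add_cancel]
        _ ≤ _ := norm_add_le _ _
    linarith
  have h1 := (hy f).1.abs
  have h2 : ε ≤ |L f| := ge_of_tendsto h1 (Eventually.of_forall fun n => (hγ n).le)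
  have h3 := (hy f).2
  have h4 : |f y| ≤ 3 * δ := by
    calc |f y| = ‖f y‖ := rfl
      _ ≤ ‖f‖ * ‖y‖ := f.le_opNorm _
      _ ≤ 1 * (3 * δ) := by gcongr
      _ = _ := one_mul _
  have h5 : |L f - f y| ≤ δ := h3.trans (by nlinarith)
  have h6 : |L f| ≤ |L f - f y| + |f y| := by
    have := abs_add_le (L f - f y) (f y)
    rwa [sub_add_cancel] at this
  linarith

section Ind

variable {X : Type} [NormedAddCommGroup X] [NormedSpace ℝ X]

theorem tf_base (A : Set X) (hA : A.Countable) (hne : A.Nonempty)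
    (hsm : ∀ (t : ℝ) (a : X), a ∈ closure A → t • a ∈ closure A) : TF X (closure A) := by
  obtain ⟨a, ha⟩ := hA.exists_eq_range hne
  refine ⟨ℕ, fun n => (1 / (((n : ℝ) + 1) * (1 + ‖a n‖))) • a n, ?_, ?_, ?_, ?_⟩
  · intro n
    apply hsm
    apply subset_closure
    rw [ha]
    exact mem_range_self n
  · intro n
    rw [norm_smul, Real.norm_of_nonneg (by positivity), one_div, inv_mul_eq_div,
      div_le_one (by positivity)]
    have h1 : (0 : ℝ) ≤ n := Nat.cast_nonneg n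
    have h2 := norm_nonneg (a n)
    nlinarith
  · intro ε hε
    refine ⟨fun _ => 0, fun f hf n => ?_⟩
    obtain ⟨N, hN⟩ := exists_nat_gt (1 / ε)
    apply (Set.finite_Iio N).subset
    rintro k ⟨_, hk⟩
    rw [mem_Iio]
    by_contra hcon
    push Not at hcon
    have h1 : |f ((1 / (((k : ℝ) + 1) * (1 + ‖a k‖))) • a k)| ≤ 1 / ((k : ℝ) + 1) := by
      calc |f ((1 / (((k : ℝ) + 1) * (1 + ‖a k‖))) • a k)|
          = ‖f ((1 / (((k : ℝ) + 1) * (1 + ‖a k‖))) • a k)‖ := rfl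
        _ ≤ ‖f‖ * ‖(1 / (((k : ℝ) + 1) * (1 + ‖a k‖))) • a k‖ := f.le_opNorm _
        _ ≤ 1 * (1 / ((k : ℝ) + 1)) := by
          gcongr
          rw [norm_smul, Real.norm_of_nonneg (by positivity), one_div, inv_mul_eq_div,
            div_le_div_iff₀ (by positivity) (by positivity)]
          have h1 : (0 : ℝ) ≤ k := Nat.cast_nonneg k
          have h2 := norm_nonneg (a k)
          nlinarith
        _ = _ := one_mul _
    have h2 : (N : ℝ) ≤ k := by exact_mod_cast hcon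
    have h3 : 1 / ((k : ℝ) + 1) < ε := by
      rw [div_lt_iff₀ (by positivity)]
      rw [div_lt_iff₀ hε] at hN
      nlinarith
    linarith
  · set S := (Submodule.span ℝ (range fun n : ℕ => (1 / (((n : ℝ) + 1) * (1 + ‖a n‖))) • a n))
      with hS
    have h1 : ∀ n, a n ∈ S := by
      intro n
      have h2 : (1 / (((n : ℝ) + 1) * (1 + ‖a n‖))) • a n ∈ S := Submodule.subset_span ⟨n, rfl⟩
      have h3 := S.smul_mem (((n : ℝ) + 1) * (1 + ‖a n‖)) h2
      rw [smul_smul, mul_one_div_cancel (by positivity), one_smul] at h3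
      exact h3
    apply closure_mono
    rw [ha]
    rintro _ ⟨n, rfl⟩
    exact h1 n

theorem tf_step [CompleteSpace X] {H : ℕ → ℕ → Set X} {ops : OI → List (UU X) → UU X}
    (hH : ∀ p m : ℕ, ECW (1 / ((p : ℝ) + 1)) (H p m)) (hcov : ∀ p x, ∃ m, x ∈ H p m)
    (hops : ∀ M : Set (UU X), Closed ops M → Good H (Prod.fst '' M) (Prod.snd '' M))
    {κ : Cardinal.{0}} (hκ : ℵ₀ < κ)
    (hIH : ∀ κ' < κ, ∀ S : Set (UU X), #S ≤ κ' → TF X (closure (Prod.fst '' cl ops S)))
    (S : Set (UU X)) (hS : #S ≤ κ) : TF X (closure (Prod.fst '' cl ops S)) := by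
  -- seeds
  rcases S.eq_empty_or_nonempty with hSe | hSne
  · apply hIH ℵ₀ hκ
    rw [hSe, mk_eq_zero]
    exact zero_le
  obtain ⟨s, hs⟩ : ∃ s : κ.ord.ToType → UU X, range s = S := by
    have h1 : #S ≤ #κ.ord.ToType := by rw [mk_ord_toType]; exact hS
    obtain ⟨e⟩ := h1
    have : Nonempty S := hSne.to_subtype
    refine ⟨fun i => (Function.invFun e i : S), ?_⟩
    ext u
    constructor
    · rintro ⟨i, rfl⟩
      exact (Function.invFun e i).2
    · intro hu
      exact ⟨e ⟨u, hu⟩, by simp only; rw [Function.leftInverse_invFun e.injective]⟩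
  have hproj : ∀ S : Set (UU X), ∃ P : X →L[ℝ] X,
      IsProj (Prod.fst '' cl ops S) (Prod.snd '' cl ops S) P := fun S =>
    exists_proj (hops _ (cl_closed ops S)) hH hcov
  choose Pr hPr using hproj
  have comm : ∀ S S' : Set (UU X), S ⊆ S' → ∀ x, Pr S' (Pr S x) = Pr S x ∧ Pr S (Pr S' x) = Pr S x :=
    fun S S' h x => proj_comm (hPr S) (hPr S') (image_mono (cl_mono ops h))
      (image_mono (cl_mono ops h)) x
  set Lo : κ.ord.ToType → Set (UU X) := fun i => s '' Iio i with hLo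
  set Hi : κ.ord.ToType → Set (UU X) := fun i => s '' Iic i with hHi
  have hLoHi : ∀ i, Lo i ⊆ Hi i := fun i => image_mono Iio_subset_Iic_self
  have hHiLo : ∀ i j, i < j → Hi i ⊆ Lo j := fun i j h =>
    image_mono (fun k hk => lt_of_le_of_lt (mem_Iic.mp hk) h)
  have hLoLo : ∀ i j, i ≤ j → Lo i ⊆ Lo j := fun i j h => image_mono (Iio_subset_Iio h)
  have hHicard : ∀ i, #(Hi i) < κ := fun i => mk_image_le.trans_lt (mk_Iic_lt hκ i)
  have hHiS : ∀ i, Hi i ⊆ S := fun i => by rw [← hs]; exact image_subset_range _ _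
  -- blocks
  have hb : ∀ i, TF X (closure (Prod.fst '' cl ops (Hi i))) := fun i =>
    hIH _ (hHicard i) (Hi i) le_rfl
  have hb0 : TF X (closure (Prod.fst '' cl ops (∅ : Set (UU X)))) := by
    apply hIH ℵ₀ hκ
    rw [mk_eq_zero]
    exact zero_le
  choose Γ y hy1 hy2 hy3 hy4 using hb
  obtain ⟨Γ₀, y₀, hy₀1, hy₀2, hy₀3, hy₀4⟩ := hb0
  -- new vectors
  set Q : κ.ord.ToType → X →L[ℝ] X := fun i => (1 / 2 : ℝ) • (Pr (Hi i) - Pr (Lo i)) with hQ
  have hQa : ∀ i x, Q i x = (1 / 2 : ℝ) • (Pr (Hi i) x - Pr (Lo i) x) := fun i x => rfl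
  have hQn : ∀ i x, ‖Q i x‖ ≤ ‖x‖ := by
    intro i x
    rw [hQa, norm_smul, Real.norm_of_nonneg (by norm_num)]
    have h1 := norm_sub_le (Pr (Hi i) x) (Pr (Lo i) x)
    have h2 := (hPr (Hi i)).norm_le x
    have h3 := (hPr (Lo i)).norm_le x
    linarith
  set x : ∀ i, Γ i → X := fun i γ => Q i (y i γ) with hx
  have hxQ : ∀ i γ, Pr (Hi i) (x i γ) - Pr (Lo i) (x i γ) = x i γ := by
    intro i γ
    simp only [hx, hQa]
    rw [map_smul, map_smul, map_sub, map_sub, (comm _ _ (subset_refl (Hi i)) (y i γ)).1,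
      (comm _ _ (hLoHi i) (y i γ)).1, (comm _ _ (hLoHi i) (y i γ)).2,
      (comm _ _ (subset_refl (Lo i)) (y i γ)).1, ← smul_sub]
    congr 1
    abel
  have hclmono : ∀ {S S' : Set (UU X)}, S ⊆ S' →
      closure (Prod.fst '' cl ops S) ⊆ closure (Prod.fst '' cl ops S') := fun h =>
    closure_mono (image_mono (cl_mono ops h))
  have hZ := fun S : Set (UU X) => (Zs (hops _ (cl_closed ops S)))
  have hxmem : ∀ i γ, x i γ ∈ closure (Prod.fst '' cl ops S) := by
    intro i γ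
    rw [hx]
    simp only [hQa]
    have h1 : Pr (Hi i) (y i γ) ∈ Zs (hops _ (cl_closed ops S)) :=
      hclmono (hHiS i) ((hPr (Hi i)).mem _)
    have h2 : Pr (Lo i) (y i γ) ∈ Zs (hops _ (cl_closed ops S)) :=
      hclmono ((hLoHi i).trans (hHiS i)) ((hPr (Lo i)).mem _)
    exact (Zs (hops _ (cl_closed ops S))).smul_mem _
      ((Zs (hops _ (cl_closed ops S))).sub_mem h1 h2)
  obtain ⟨xx, hxx1, hxx2⟩ : ∃ xx : Γ₀ ⊕ (Σ i, Γ i) → X, (∀ γ, xx (Sum.inl γ) = y₀ γ) ∧
      ∀ i γ, xx (Sum.inr ⟨i, γ⟩) = x i γ :=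
    ⟨Sum.elim y₀ (fun p : (Σ i, Γ i) => x p.1 p.2), fun _ => rfl, fun _ _ => rfl⟩
  refine ⟨Γ₀ ⊕ (Σ i, Γ i), xx, ?_, ?_, ?_, ?_⟩
  · rintro (γ | ⟨i, γ⟩)
    · rw [hxx1]; exact hclmono (empty_subset S) (hy₀1 γ)
    · rw [hxx2]; exact hxmem i γ
  · rintro (γ | ⟨i, γ⟩)
    · rw [hxx1]; exact hy₀2 γ
    · rw [hxx2]; exact (hQn _ _).trans (hy2 i γ)
  · intro ε hε
    obtain ⟨c₀, hc₀⟩ := hy₀3 ε hε
    have hc := fun i => hy3 i ε hε
    choose c hc using hc
    obtain ⟨p, hp⟩ := exists_nat_one_div_lt (show (0 : ℝ) < ε / 4 by linarith)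
    choose m hm using hcov p
    obtain ⟨cc, hcc1, hcc2⟩ : ∃ cc : Γ₀ ⊕ (Σ i, Γ i) → ℕ, (∀ γ, cc (Sum.inl γ) = Nat.pair 0 (c₀ γ)) ∧
        ∀ i γ, cc (Sum.inr ⟨i, γ⟩) = Nat.pair (m (x i γ) + 1) (c i γ) :=
      ⟨Sum.elim (fun γ => Nat.pair 0 (c₀ γ))
        (fun q : (Σ i, Γ i) => Nat.pair (m (x q.1 q.2) + 1) (c q.1 q.2)),
        fun _ => rfl, fun _ _ => rfl⟩
    refine ⟨cc, fun f hf n => ?_⟩
    have hfin : ∀ m₀ : ℕ, {i | ∃ γ, x i γ ∈ H p m₀ ∧ ε < |f (x i γ)|}.Finite := by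
      intro m₀
      refine finite_blocks (hH p m₀) (by positivity) (fun i => Pr (Lo i)) (fun i => Pr (Hi i))
        (fun i x => (hPr (Lo i)).norm_le x) (fun i j h x => (comm _ _ (hLoLo i j h) x).2)
        (fun i j h x => (comm _ _ ((hLoLo i j h).trans (hLoHi j)) x).2)
        (fun i j h x => (comm _ _ (hHiLo i j h) x).1)
        (fun i j h x => (comm _ _ (hLoLo i j h) x).1) x hxQ f hf ε (by linarith)
    have hblock : ∀ i (a : ℕ), {γ | c i γ = a ∧ ε < |f (x i γ)|}.Finite := by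
      intro i a
      have h1 : ‖f.comp (Q i)‖ ≤ 1 := by
        refine ContinuousLinearMap.opNorm_le_bound _ zero_le_one fun x => ?_
        rw [ContinuousLinearMap.comp_apply]
        calc ‖f (Q i x)‖ ≤ ‖f‖ * ‖Q i x‖ := f.le_opNorm _
          _ ≤ 1 * ‖x‖ := by
            gcongr
            exact hQn _ _
      exact hc i (f.comp (Q i)) h1 a
    have h1 : {γ : Γ₀ ⊕ (Σ i, Γ i) | cc γ = n ∧ ε < |f (xx γ)|} ⊆
        (Sum.inl '' {γ | c₀ γ = n.unpair.2 ∧ ε < |f (y₀ γ)|}) ∪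
        ⋃ i ∈ {i | ∃ γ, x i γ ∈ H p (n.unpair.1 - 1) ∧ ε < |f (x i γ)|},
          (fun γ : Γ i => (Sum.inr ⟨i, γ⟩ : Γ₀ ⊕ (Σ i, Γ i))) ''
          {γ | c i γ = n.unpair.2 ∧ ε < |f (x i γ)|} := by
      rintro (γ | ⟨i, γ⟩) ⟨hγ1, hγ2⟩
      · rw [hxx1] at hγ2
        rw [hcc1] at hγ1
        refine Or.inl ⟨γ, ⟨?_, hγ2⟩, rfl⟩
        rw [← hγ1, Nat.unpair_pair]
      · rw [hxx2] at hγ2
        rw [hcc2] at hγ1
        refine Or.inr (mem_biUnion (show i ∈ {i | ∃ γ, x i γ ∈ H p (n.unpair.1 - 1) ∧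
          ε < |f (x i γ)|} from ⟨γ, ?_, hγ2⟩) ⟨γ, ⟨?_, hγ2⟩, rfl⟩)
        · rw [← hγ1, Nat.unpair_pair]
          exact hm (x i γ)
        · rw [← hγ1, Nat.unpair_pair]
    exact (((hc₀ f hf _).image _).union
      ((hfin _).biUnion fun i _ => (hblock i _).image _)).subset h1
  · set V : Submodule ℝ X := Submodule.span ℝ (range xx) with hV
    have hsub0 : Submodule.span ℝ (range y₀) ≤ V := by
      apply Submodule.span_mono
      rintro _ ⟨γ, rfl⟩
      exact ⟨Sum.inl γ, hxx1 γ⟩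
    have hsub : ∀ i, Submodule.span ℝ (range (x i)) ≤ V := by
      intro i
      apply Submodule.span_mono
      rintro _ ⟨γ, rfl⟩
      exact ⟨Sum.inr ⟨i, γ⟩, hxx2 i γ⟩
    have hempty : Prod.fst '' cl ops ∅ ⊆ (V.topologicalClosure : Set X) := by
      intro a ha
      exact closure_mono hsub0 (hy₀4 (subset_closure ha))
    have hVi : ∀ i, ∀ z ∈ closure (Prod.fst '' cl ops (Hi i)), Q i z ∈ V.topologicalClosure := by
      intro i z hz
      have h1 := hy4 i hz
      have h2 : Q i z ∈ closure (Q i '' ((Submodule.span ℝ (range (y i)) : Submodule ℝ X) : Set X)) :=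
        image_closure_subset_closure_image (Q i).continuous ⟨z, h1, rfl⟩
      refine closure_mono ?_ h2
      rintro _ ⟨w, hw, rfl⟩
      apply hsub i
      have h5 : Q i w ∈ (Submodule.span ℝ (range (y i))).map (Q i).toLinearMap := ⟨w, hw, rfl⟩
      rw [Submodule.map_span, ← range_comp] at h5
      exact h5
    have hHiLo' : ∀ i, Prod.fst '' cl ops (Lo i) ⊆ (V.topologicalClosure : Set X) →
        Prod.fst '' cl ops (Hi i) ⊆ (V.topologicalClosure : Set X) := by
      intro i hi a ha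
      have h1 : a = (2 : ℝ) • Q i a + Pr (Lo i) a := by
        rw [hQa, smul_smul, (hPr (Hi i)).fix a (subset_closure ha)]
        norm_num
      rw [h1]
      apply V.topologicalClosure.add_mem
      · exact V.topologicalClosure.smul_mem _ (hVi i a (subset_closure ha))
      · exact closure_minimal hi V.isClosed_topologicalClosure ((hPr (Lo i)).mem a)
    have hall : ∀ i, Prod.fst '' cl ops (Lo i) ⊆ (V.topologicalClosure : Set X) := by
      intro i
      induction i using WellFoundedLT.induction with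
      | ind i ih =>
        rintro _ ⟨u, hu, rfl⟩
        rcases cl_stage ops s (Iio i) hu with hu | ⟨j, hj, hu⟩
        · exact hempty ⟨u, hu, rfl⟩
        · exact hHiLo' j (ih j hj) ⟨u, hu, rfl⟩
    have hDV : Prod.fst '' cl ops S ⊆ (V.topologicalClosure : Set X) := by
      rintro _ ⟨u, hu, rfl⟩
      rw [← hs, ← image_univ] at hu
      rcases cl_stage ops s univ hu with hu | ⟨j, _, hu⟩
      · exact hempty ⟨u, hu, rfl⟩
      · exact hHiLo' j (hall j) ⟨u, hu, rfl⟩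
    intro z hz
    have h1 : z ∈ (V.topologicalClosure : Set X) :=
      closure_minimal hDV V.isClosed_topologicalClosure hz
    rwa [Submodule.topologicalClosure_coe] at h1

end Ind

theorem tf_of_cs (Y : Type) [NormedAddCommGroup Y] [NormedSpace ℝ Y] [CompleteSpace Y]
    (hY : CS (univ : Set Y)) : TF Y (univ : Set Y) := by
  have h1 : ∀ p : ℕ, ∃ H : ℕ → Set Y, (∀ n, ECW (1 / ((p : ℝ) + 1)) (H n)) ∧ (Set.univ : Set Y) ⊆ ⋃ n, H n :=
    fun p => hY _ (by positivity)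
  choose H hH hcov using h1
  have hcov' : ∀ p x, ∃ m, x ∈ H p m := fun p x => mem_iUnion.mp (hcov p (mem_univ x))
  obtain ⟨ops, hops⟩ := exists_ops H
  have h : ∀ κ : Cardinal.{0}, ∀ S : Set (UU Y), #S ≤ κ → TF Y (closure (Prod.fst '' cl ops S)) := by
    intro κ
    induction κ using WellFoundedLT.induction with
    | ind κ ih =>
      rcases le_or_gt κ ℵ₀ with hκ | hκ
      · intro S hS
        have hG := hops _ (cl_closed ops S)
        apply tf_base
        · have h2 : #(cl ops S) ≤ ℵ₀ := (mk_cl_le ops S).trans (max_le (hS.trans hκ) le_rfl)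
          rw [← Cardinal.le_aleph0_iff_set_countable]
          exact mk_image_le.trans h2
        · have h3 := hG.lin [] (by simp) 1
          exact ⟨_, h3⟩
        · intro t a ha
          exact (Zs hG).smul_mem t ha
      · exact tf_step hH hcov' hops hκ ih
  have h2 := h #(univ : Set (UU Y)) univ le_rfl
  have h3 : closure (Prod.fst '' cl ops (univ : Set (UU Y))) = Set.univ := by
    have : Prod.fst '' cl ops (univ : Set (UU Y)) = Set.univ := by
      apply eq_univ_of_forall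
      intro y
      exact ⟨(y, 0), subset_cl ops _ (Set.mem_univ _), rfl⟩
    rw [this, closure_univ]
  rwa [h3] at h2

end Pool.Agent.Helper755.WH
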