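import Pool.Agent.Helper755.WH.D
import Pool.Agent.Helper755.WH.F3
import Pool.Agent.Helper755.WH.I4
import Pool.Agent.Helper755.WH.J1
import Pool.Agent.Helper755.WH.Tf

set_option autoImplicit false

/-!
# Weak homeomorphisms preserve subspaces of weakly compactly generated spaces

Outline of the proof.

* A subset `H` of a Banach space is called `ECW ε` if ultrafilter limits of points of `H`, taken in
  the bidual, are within `ε` of the space. `CS M`: for every `ε > 0` the set `M` has a countable
  cover by `ECW ε` sets. The class `CS univ` contains the weakly compactly generated spaces and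
  passes to subspaces (`WH/A`, `WH/B`, `WH/D`).
* (`WH/E1`, `WH/E2`) A norm-to-weak continuous map from a complete space is norm-to-norm continuous
  at the points of a dense set `D`.
* (`WH/F1`-`WH/F3`) If `h : X → Y` is weak-to-weak continuous and onto, and `X` has `CS univ`, then
  `h '' D` is `CS`: an ultrafilter limit of points `x i` of a `δ`-weakly relatively compact class is
  within `δ` of a point `x`, by the Helly-Goldstine theorem the points `x i - v` with a vector `v`
  of norm slightly more than `δ` are weakly as close to `x` as we like, and `h (x i - v)` is norm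
  close to `h (x i)` by the norm continuity of `h` at `x i`. Hence `Y` has `CS univ`.
* (`WH/Proj`, `WH/Tf`) A space with `CS univ` has many commuting norm one projections, and, by
  induction on the cardinality, a total family which is `c₀`-like up to countable partitions.
* (`WH/I1`-`WH/I4`) Such a family makes `C(T)`, with `T` the dual unit ball in the weak-star
  topology, weakly compactly generated; and the space embeds isometrically in `C(T)`.
-/

namespace Pool.Agent.Helper755.WH

open Filter Topology Set

/-- Weak homeomorphisms preserve the class of subspaces of weakly compactly generated spaces. -/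
theorem main (X Y : Type) [NormedAddCommGroup X] [NormedSpace ℝ X] [CompleteSpace X]
      [NormedAddCommGroup Y] [NormedSpace ℝ Y] [CompleteSpace Y]
      (hX : ∃ (Z : Type) (_ : NormedAddCommGroup Z) (_ : NormedSpace ℝ Z) (_ : CompleteSpace Z),
        (∃ K : Set Z, IsCompact (toWeakSpace ℝ Z '' K) ∧
          Dense (Submodule.span ℝ K : Set Z)) ∧
        ∃ T : X →L[ℝ] Z, ∃ c : ℝ, 0 < c ∧ ∀ x : X, c * ‖x‖ ≤ ‖T x‖)
      (hh : Nonempty (WeakSpace ℝ X ≃ₜ WeakSpace ℝ Y)) :
      (∃ (Z : Type) (_ : NormedAddCommGroup Z) (_ : NormedSpace ℝ Z) (_ : CompleteSpace Z),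
        (∃ K : Set Z, IsCompact (toWeakSpace ℝ Z '' K) ∧
          Dense (Submodule.span ℝ K : Set Z)) ∧
        ∃ T : Y →L[ℝ] Z, ∃ c : ℝ, 0 < c ∧ ∀ y : Y, c * ‖y‖ ≤ ‖T y‖) := by
  obtain ⟨Z, _, _, _, hZ, T, c, hc, hT⟩ := hX
  obtain ⟨h⟩ := hh
  have h1 : CS (univ : Set Z) := CS.of_wcg hZ
  have h2 : CS (univ : Set X) := CS.of_embed T hc hT h1
  have h3 : CS (univ : Set Y) := by
    refine cs_transfer _ (wwc_of_homeo h) ?_ h2
    intro y
    refine ⟨(toWeakSpace ℝ X).symm (h.symm (toWeakSpace ℝ Y y)), ?_⟩
    simp
  exact embed_of_tf Y (tf_of_cs Y h3)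

end Pool.Agent.Helper755.WH
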