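import Pool.Agent.Helper755.WH.Cl
import Pool.Agent.Helper755.WH.Defs

set_option autoImplicit false

namespace Pool.Agent.Helper755.WH

open Filter Topology Set

section HB

variable {X : Type} [NormedAddCommGroup X] [NormedSpace ℝ X]

theorem ext_dual {x y : X} (h : ∀ φ : StrongDual ℝ X, φ x = φ y) : x = y := by
  obtain ⟨g, _, hg⟩ := exists_dual_vector'' ℝ (x - y)
  rw [map_sub, h g, sub_self] at hg
  have : ‖x - y‖ = 0 := by simpa using hg.symm
  exact sub_eq_zero.mp (norm_eq_zero.mp this)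

/-- If all functionals vanishing on a subspace are at most `δ ‖φ‖` at `w`, then `w` is at
distance less than any `r > δ` from the subspace. -/
theorem dist_le_functional (p : Submodule ℝ X) (w : X) {δ r : ℝ}
    (hr : δ < r) (h : ∀ φ : StrongDual ℝ X, (∀ y ∈ p, φ y = 0) → |φ w| ≤ δ * ‖φ‖)
    (hδ : 0 ≤ δ) : ∃ y ∈ p, ‖w - y‖ < r := by
  set q := p.topologicalClosure with hq
  have : IsClosed (q : Set X) := p.isClosed_topologicalClosure
  obtain ⟨g, hg1, hg2⟩ := exists_dual_vector'' ℝ (q.mkQL w)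
  set φ : StrongDual ℝ X := g.comp q.mkQL with hφ
  have h2 : ∀ y ∈ p, φ y = 0 := by
    intro y hy
    have : q.mkQL y = 0 := by
      rw [Submodule.mkQL_apply, Submodule.mkQ_apply, Submodule.Quotient.mk_eq_zero]
      exact p.le_topologicalClosure hy
    rw [hφ, ContinuousLinearMap.comp_apply, this, map_zero]
  have h3 := h φ h2
  have hφn : ‖φ‖ ≤ 1 := by
    refine ContinuousLinearMap.opNorm_le_bound _ zero_le_one fun x => ?_
    rw [hφ, ContinuousLinearMap.comp_apply]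
    calc ‖g (q.mkQL x)‖ ≤ ‖g‖ * ‖q.mkQL x‖ := g.le_opNorm _
      _ ≤ 1 * ‖x‖ := by
        gcongr
        rw [Submodule.mkQL_apply, Submodule.mkQ_apply]
        exact Submodule.Quotient.norm_mk_le q x
  have h4 : ‖q.mkQL w‖ ≤ δ := by
    have h5 : φ w = ‖q.mkQL w‖ := by
      rw [hφ, ContinuousLinearMap.comp_apply, hg2]; rfl
    rw [h5, abs_of_nonneg (norm_nonneg _)] at h3
    exact h3.trans (by nlinarith)
  have h5 : ‖(Submodule.Quotient.mk w : X ⧸ q)‖ < r := lt_of_le_of_lt h4 hr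
  obtain ⟨m, hm, hmr⟩ := Submodule.Quotient.norm_mk_lt (S := q) (Submodule.Quotient.mk w) (sub_pos.mpr h5)
  rw [add_sub_cancel] at hmr
  have h6 : w - m ∈ q := by
    rw [← Submodule.Quotient.mk_eq_zero, Submodule.Quotient.mk_sub, hm, sub_self]
  have h7 : w - m ∈ closure (p : Set X) := h6
  rw [Metric.mem_closure_iff] at h7
  obtain ⟨y, hy, hyw⟩ := h7 (r - ‖m‖) (sub_pos.mpr hmr)
  refine ⟨y, hy, ?_⟩
  rw [dist_eq_norm] at hyw
  calc ‖w - y‖ = ‖(w - m - y) + m‖ := by congr 1; abel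
    _ ≤ ‖w - m - y‖ + ‖m‖ := norm_add_le _ _
    _ < r := by linarith

theorem mem_closure_of_dual (p : Submodule ℝ X) (w : X)
    (h : ∀ φ : StrongDual ℝ X, (∀ y ∈ p, φ y = 0) → φ w = 0) : w ∈ closure (p : Set X) := by
  rw [Metric.mem_closure_iff]
  intro r hr
  obtain ⟨y, hy, h1⟩ := dist_le_functional p w (δ := 0) hr (fun φ hφ => by
    rw [h φ hφ]; simp) le_rfl
  exact ⟨y, hy, by rwa [dist_eq_norm]⟩

end HB

section Good

variable {X : Type} [NormedAddCommGroup X] [NormedSpace ℝ X]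

/-- The two coordinates. -/
abbrev UU (X : Type) [NormedAddCommGroup X] [NormedSpace ℝ X] : Type := X × StrongDual ℝ X

/-- A good pair of sets for the family of classes `H`. -/
structure Good (H : ℕ → ℕ → Set X) (A : Set X) (B : Set (StrongDual ℝ X)) : Prop where
  lin : ∀ l : List X, (∀ x ∈ l, x ∈ A) → ∀ q : ℚ, (q : ℝ) • l.sum ∈ A
  norming : ∀ a ∈ A, ∃ g ∈ B, ‖g‖ ≤ 1 ∧ g a = ‖a‖
  approx : ∀ p m : ℕ, ∀ l : List (StrongDual ℝ X), (∀ f ∈ l, f ∈ B) → ∀ k ∈ H p m, ∀ δ : ℝ,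
    0 < δ → ∃ a ∈ A, a ∈ H p m ∧ ∀ f ∈ l, |f a - f k| < δ

/-- The projection attached to a good pair. -/
structure IsProj (A : Set X) (B : Set (StrongDual ℝ X)) (P : X →L[ℝ] X) : Prop where
  mem : ∀ x, P x ∈ closure A
  fix : ∀ a ∈ closure A, P a = a
  dual : ∀ x, ∀ f ∈ B, f (P x) = f x
  ker : ∀ x, (∀ f ∈ B, f x = 0) → P x = 0
  norm_le : ∀ x, ‖P x‖ ≤ ‖x‖

theorem exists_seq (K : Set X) (l : List (UU X)) : ∃ k : ℕ → X,
    (K.Nonempty → ∀ m, k m ∈ K) ∧
      ∀ k' ∈ K, ∀ δ : ℝ, 0 < δ → ∃ m, ∀ u ∈ l, |u.2 (k m) - u.2 k'| < δ := by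
  rcases K.eq_empty_or_nonempty with hK | hK
  · refine ⟨fun _ => 0, fun h => ?_, fun k' hk' => ?_⟩
    · rw [hK] at h; exact absurd h Set.not_nonempty_empty
    · rw [hK] at hk'; exact absurd hk' (Set.notMem_empty _)
  set Φ : K → (Fin l.length → ℝ) := fun k i => (l.get i).2 (k : X) with hΦ
  have : Nonempty K := hK.to_subtype
  have : Nonempty (range Φ) := (range_nonempty Φ).to_subtype
  set d := TopologicalSpace.denseSeq (range Φ) with hd
  have hd' : DenseRange d := TopologicalSpace.denseRange_denseSeq _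
  have h1 : ∀ m, ∃ k : K, Φ k = d m := fun m => (d m).2
  choose k hk using h1
  refine ⟨fun m => k m, fun _ m => (k m).2, fun k' hk' δ hδ => ?_⟩
  obtain ⟨m, hm⟩ := Metric.denseRange_iff.mp hd' ⟨Φ ⟨k', hk'⟩, mem_range_self _⟩ δ hδ
  refine ⟨m, fun u hu => ?_⟩
  obtain ⟨i, hi⟩ := List.get_of_mem hu
  have h2 : dist (Φ ⟨k', hk'⟩) (d m : Fin l.length → ℝ) < δ := hm
  rw [← hk] at h2
  have h3 := (dist_pi_lt_iff hδ).mp h2 i
  rw [Real.dist_eq, abs_sub_comm] at h3
  simp only [hΦ, hi] at h3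
  exact h3

/-- The index type of operations. -/
abbrev OI : Type := ℚ ⊕ Unit ⊕ (ℕ × ℕ × ℕ)

/-- Operations whose closed sets are good. -/
theorem exists_ops (H : ℕ → ℕ → Set X) : ∃ ops : OI → List (UU X) → UU X,
    ∀ M : Set (UU X), Closed ops M → Good H (Prod.fst '' M) (Prod.snd '' M) := by
  choose k hk1 hk2 using fun (p m : ℕ) (l : List (UU X)) => exists_seq (H p m) l
  have h1 : ∀ x : X, ∃ g : StrongDual ℝ X, ‖g‖ ≤ 1 ∧ g x = ‖x‖ := fun x =>
    exists_dual_vector'' ℝ x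
  choose g hg1 hg2 using h1
  refine ⟨fun i l => match i with
    | Sum.inl q => ((q : ℝ) • (l.map Prod.fst).sum, 0)
    | Sum.inr (Sum.inl _) => (0, g (l.map Prod.fst).sum)
    | Sum.inr (Sum.inr (p, m, n)) => (k p m l n, 0), ?_⟩
  intro M hM
  have lift1 : ∀ l : List X, (∀ x ∈ l, x ∈ Prod.fst '' M) →
      ∃ l' : List (UU X), (∀ u ∈ l', u ∈ M) ∧ l'.map Prod.fst = l := by
    intro l hl
    induction l with
    | nil => exact ⟨[], by simp, rfl⟩
    | cons a l ih =>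
      obtain ⟨l', h1, h2⟩ := ih (fun x hx => hl x (List.mem_cons_of_mem _ hx))
      obtain ⟨u, hu, rfl⟩ := hl a List.mem_cons_self
      refine ⟨u :: l', ?_, by simp [h2]⟩
      intro v hv
      rcases List.mem_cons.mp hv with rfl | hv
      · exact hu
      · exact h1 v hv
  have lift2 : ∀ l : List (StrongDual ℝ X), (∀ x ∈ l, x ∈ Prod.snd '' M) →
      ∃ l' : List (UU X), (∀ u ∈ l', u ∈ M) ∧ l'.map Prod.snd = l := by
    intro l hl
    induction l with
    | nil => exact ⟨[], by simp, rfl⟩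
    | cons a l ih =>
      obtain ⟨l', h1, h2⟩ := ih (fun x hx => hl x (List.mem_cons_of_mem _ hx))
      obtain ⟨u, hu, rfl⟩ := hl a List.mem_cons_self
      refine ⟨u :: l', ?_, by simp [h2]⟩
      intro v hv
      rcases List.mem_cons.mp hv with rfl | hv
      · exact hu
      · exact h1 v hv
  refine ⟨?_, ?_, ?_⟩
  · intro l hl q
    obtain ⟨l', h1, rfl⟩ := lift1 l hl
    exact ⟨_, hM (Sum.inl q) l' h1, rfl⟩
  · rintro _ ⟨u, hu, rfl⟩
    refine ⟨g u.1, ⟨_, hM (Sum.inr (Sum.inl ())) [u] (by simpa using hu), ?_⟩, hg1 _, hg2 _⟩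
    simp
  · intro p m l hl k' hk' δ hδ
    obtain ⟨l', h1, rfl⟩ := lift2 l hl
    obtain ⟨n, hn⟩ := hk2 p m l' k' hk' δ hδ
    refine ⟨k p m l' n, ⟨_, hM (Sum.inr (Sum.inr (p, m, n))) l' h1, rfl⟩,
      hk1 p m l' ⟨k', hk'⟩ n, fun f hf => ?_⟩
    obtain ⟨u, hu, rfl⟩ := List.mem_map.mp hf
    exact hn u hu

end Good

section Proj

variable {X : Type} [NormedAddCommGroup X] [NormedSpace ℝ X]
variable {H : ℕ → ℕ → Set X} {A : Set X} {B : Set (StrongDual ℝ X)}

/-- The closure of the first coordinate set as a submodule. -/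
def Zs (hG : Good H A B) : Submodule ℝ X where
  carrier := closure A
  zero_mem' := by
    apply subset_closure
    have := hG.lin [] (by simp) 1
    simpa using this
  add_mem' := by
    intro a b ha hb
    refine map_mem_closure₂ continuous_add ha hb (fun a ha b hb => ?_)
    have := hG.lin [a, b] (by
      intro x hx
      rcases List.mem_cons.mp hx with rfl | hx
      · exact ha
      · rw [List.mem_singleton.mp hx]; exact hb) 1
    simpa using this
  smul_mem' := by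
    intro c a ha
    have hc : c ∈ closure (range ((↑) : ℚ → ℝ)) := Rat.denseRange_cast c
    refine map_mem_closure₂ continuous_smul hc ha ?_
    rintro _ ⟨q, rfl⟩ a ha
    have := hG.lin [a] (by simpa using ha) q
    simpa using this

theorem norm_le_of_B (hG : Good H A B) {a : X} (ha : a ∈ closure A) {C : ℝ}
    (hC : ∀ f ∈ B, |f a| ≤ C * ‖f‖) (hC0 : 0 ≤ C) : ‖a‖ ≤ C := by
  refine le_of_forall_pos_le_add fun η hη => ?_
  obtain ⟨b, hb, hab⟩ := Metric.mem_closure_iff.mp ha (η / 2) (by linarith)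
  rw [dist_eq_norm] at hab
  obtain ⟨g, hgB, hg1, hg2⟩ := hG.norming b hb
  have h1 : |g a| ≤ C := (hC g hgB).trans (by nlinarith)
  have h2 : |g (a - b)| ≤ ‖a - b‖ := by
    calc |g (a - b)| = ‖g (a - b)‖ := rfl
      _ ≤ ‖g‖ * ‖a - b‖ := g.le_opNorm _
      _ ≤ 1 * ‖a - b‖ := by gcongr
      _ = _ := one_mul _
  rw [map_sub] at h2
  have h3 : ‖a‖ ≤ ‖a - b‖ + ‖b‖ := by
    calc ‖a‖ = ‖(a - b) + b‖ := by rw [sub_add_cancel]
      _ ≤ _ := norm_add_le _ _
  have h4 := abs_le.mp h1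
  have h5 := abs_le.mp h2
  linarith [h4.1, h4.2, h5.1, h5.2]

theorem Zs_norm (hG : Good H A B) {a y : X} (ha : a ∈ closure A) (hy : ∀ f ∈ B, f y = 0) :
    ‖a‖ ≤ ‖a + y‖ := by
  apply norm_le_of_B hG ha _ (norm_nonneg _)
  intro f hf
  have : f a = f (a + y) := by rw [map_add, hy f hf, add_zero]
  rw [this, mul_comm]
  exact f.le_opNorm _

/-- Approximate decomposition of the points of the space. -/
theorem approx_decomp (hG : Good H A B) (hH : ∀ p m : ℕ, ECW (1 / ((p : ℝ) + 1)) (H p m))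
    (p m : ℕ) {k : X} (hk : k ∈ H p m) :
    ∃ a ∈ closure A, ∀ f ∈ B, |f a - f k| ≤ 3 / ((p : ℝ) + 1) * ‖f‖ := by
  classical
  have h1 : ∀ q : Finset B × ℕ, ∃ a ∈ A, a ∈ H p m ∧ ∀ f ∈ q.1, |f.1 a - f.1 k| < 1 / ((q.2 : ℝ) + 1) := by
    rintro ⟨F, n⟩
    obtain ⟨a, ha1, ha2, ha3⟩ := hG.approx p m (F.toList.map Subtype.val) (by
      intro f hf
      obtain ⟨f', _, rfl⟩ := List.mem_map.mp hf
      exact f'.2) k hk (1 / ((n : ℝ) + 1)) (by positivity)
    refine ⟨a, ha1, ha2, fun f hf => ha3 _ ?_⟩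
    exact List.mem_map.mpr ⟨f, Finset.mem_toList.mpr hf, rfl⟩
  choose a ha1 ha2 ha3 using h1
  set U : Ultrafilter (Finset B × ℕ) := Ultrafilter.of atTop with hU
  obtain ⟨z, L, hL⟩ := hH p m _ U a ha2
  have hp : (0 : ℝ) < 1 / ((p : ℝ) + 1) := by positivity
  obtain ⟨w, hw, hzw⟩ := dist_le_functional (Zs hG) z (δ := 1 / ((p : ℝ) + 1))
    (r := 2 / ((p : ℝ) + 1)) (by
      have : 2 / ((p : ℝ) + 1) = 2 * (1 / ((p : ℝ) + 1)) := by ring
      rw [this]; linarith) (by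
      intro φ hφ
      have h2 := (hL φ).1
      have h3 : ∀ q, φ (a q) = 0 := fun q => hφ _ (subset_closure (ha1 q))
      simp only [h3] at h2
      have h4 : L φ = 0 := tendsto_nhds_unique h2 tendsto_const_nhds
      have h5 := (hL φ).2
      rwa [h4, zero_sub, abs_neg] at h5) hp.le
  refine ⟨w, hw, fun f hf => ?_⟩
  have h2 := (hL f).1
  have h3 : Tendsto (fun q => f (a q)) U (𝓝 (f k)) := by
    rw [Metric.tendsto_nhds]
    intro ε hε
    obtain ⟨n, hn⟩ := exists_nat_one_div_lt hε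
    have h4 : ∀ᶠ q : Finset B × ℕ in atTop, dist (f (a q)) (f k) < ε := by
      filter_upwards [eventually_ge_atTop (({⟨f, hf⟩} : Finset B), n)] with q hq
      have h5 := ha3 q ⟨f, hf⟩ (hq.1 (Finset.mem_singleton_self _))
      rw [Real.dist_eq]
      refine lt_trans h5 (lt_of_le_of_lt ?_ hn)
      apply one_div_le_one_div_of_le (by positivity)
      have : (n : ℝ) ≤ q.2 := by exact_mod_cast hq.2
      linarith
    exact Ultrafilter.of_le atTop h4
  have h4 : L f = f k := tendsto_nhds_unique h2 h3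
  have h5 := (hL f).2
  rw [h4] at h5
  have h6 : |f z - f w| ≤ 2 / ((p : ℝ) + 1) * ‖f‖ := by
    rw [← map_sub]
    calc |f (z - w)| = ‖f (z - w)‖ := rfl
      _ ≤ ‖f‖ * ‖z - w‖ := f.le_opNorm _
      _ ≤ ‖f‖ * (2 / ((p : ℝ) + 1)) := by gcongr
      _ = _ := mul_comm _ _
  have h7 : 3 / ((p : ℝ) + 1) * ‖f‖ = 1 / ((p : ℝ) + 1) * ‖f‖ + 2 / ((p : ℝ) + 1) * ‖f‖ := by ring
  rw [h7]
  have h8 := abs_le.mp h5
  have h9 := abs_le.mp h6
  rw [abs_le]
  constructor <;> linarith [h8.1, h8.2, h9.1, h9.2]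

theorem exists_proj [CompleteSpace X] (hG : Good H A B)
    (hH : ∀ p m : ℕ, ECW (1 / ((p : ℝ) + 1)) (H p m)) (hcov : ∀ p x, ∃ m, x ∈ H p m) :
    ∃ P : X →L[ℝ] X, IsProj A B P := by
  have hE : ∀ x : X, ∃ a ∈ closure A, ∀ f ∈ B, f a = f x := by
    intro x
    have h1 : ∀ p : ℕ, ∃ a ∈ closure A, ∀ f ∈ B, |f a - f x| ≤ 3 / ((p : ℝ) + 1) * ‖f‖ := by
      intro p
      obtain ⟨m, hm⟩ := hcov p x
      exact approx_decomp hG hH p m hm
    choose a ha ha' using h1
    have hb : ∀ m n : ℕ, ‖a m - a n‖ ≤ 3 / ((m : ℝ) + 1) + 3 / ((n : ℝ) + 1) := by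
      intro m n
      apply norm_le_of_B hG ((Zs hG).sub_mem (ha m) (ha n)) _ (by positivity)
      intro f hf
      have h2 := abs_le.mp (ha' m f hf)
      have h3 := abs_le.mp (ha' n f hf)
      rw [map_sub, add_mul, abs_le]
      constructor <;> linarith [h2.1, h2.2, h3.1, h3.2]
    have hlim0 : Tendsto (fun n : ℕ => 3 / ((n : ℝ) + 1)) atTop (𝓝 0) := by
      have h := (tendsto_one_div_add_atTop_nhds_zero_nat (𝕜 := ℝ)).const_mul 3
      simp only [mul_one_div, mul_zero] at h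
      exact h
    have hc : CauchySeq a := by
      rw [Metric.cauchySeq_iff']
      intro ε hε
      have h2 := (Metric.tendsto_atTop.mp hlim0) (ε / 2) (by linarith)
      obtain ⟨N, hN⟩ := h2
      refine ⟨N, fun n hn => ?_⟩
      have h3 := hN n hn
      have h4 := hN N le_rfl
      rw [Real.dist_eq, sub_zero, abs_of_nonneg (by positivity)] at h3 h4
      rw [dist_eq_norm]
      linarith [hb n N]
    obtain ⟨a₀, ha₀⟩ := cauchySeq_tendsto_of_complete hc
    refine ⟨a₀, isClosed_closure.mem_of_tendsto ha₀ (Eventually.of_forall ha), fun f hf => ?_⟩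
    have h1 : Tendsto (fun n => f (a n)) atTop (𝓝 (f a₀)) := (f.continuous.tendsto _).comp ha₀
    have h2 : Tendsto (fun n => f (a n)) atTop (𝓝 (f x)) := by
      rw [tendsto_iff_dist_tendsto_zero]
      have h3 := hlim0.mul_const ‖f‖
      rw [zero_mul] at h3
      exact squeeze_zero (fun _ => dist_nonneg) (fun n => by
        rw [Real.dist_eq]; exact ha' n f hf) h3
    exact tendsto_nhds_unique h1 h2
  choose p hp1 hp2 using hE
  have huniq : ∀ x a, a ∈ closure A → (∀ f ∈ B, f a = f x) → a = p x := by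
    intro x a ha ha'
    have h1 := Zs_norm hG (a := a - p x) (y := -(a - p x)) ((Zs hG).sub_mem ha (hp1 x))
      (fun f hf => by rw [map_neg, map_sub, ha' f hf, hp2 x f hf]; ring)
    rw [add_neg_cancel, norm_zero] at h1
    exact sub_eq_zero.mp (norm_le_zero_iff.mp h1)
  have hnorm : ∀ x, ‖p x‖ ≤ ‖x‖ := by
    intro x
    have h1 := Zs_norm hG (a := p x) (y := x - p x) (hp1 x)
      (fun f hf => by rw [map_sub, hp2 x f hf, sub_self])
    rwa [add_sub_cancel] at h1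
  let L : X →ₗ[ℝ] X :=
    { toFun := p
      map_add' := fun x y => (huniq (x + y) (p x + p y) ((Zs hG).add_mem (hp1 x) (hp1 y))
        (fun f hf => by rw [map_add, map_add, hp2 x f hf, hp2 y f hf])).symm
      map_smul' := fun c x => (huniq (c • x) (c • p x) ((Zs hG).smul_mem c (hp1 x))
        (fun f hf => by rw [map_smul, map_smul, hp2 x f hf])).symm }
  refine ⟨L.mkContinuous 1 (fun x => by rw [one_mul]; exact hnorm x), ?_, ?_, ?_, ?_, ?_⟩
  · exact hp1
  · exact fun a ha => (huniq a a ha (fun f _ => rfl)).symm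
  · exact hp2
  · intro x hx
    exact (huniq x 0 (Zs hG).zero_mem (fun f hf => by rw [map_zero, hx f hf])).symm
  · exact hnorm

/-- Nested projections commute. -/
theorem proj_comm {A' : Set X} {B' : Set (StrongDual ℝ X)} {P P' : X →L[ℝ] X}
    (h : IsProj A B P) (h' : IsProj A' B' P') (hA : A ⊆ A') (hB : B ⊆ B') (x : X) :
    P' (P x) = P x ∧ P (P' x) = P x := by
  refine ⟨h'.fix _ (closure_mono hA (h.mem x)), ?_⟩
  have h1 := h.ker (x - P' x) (fun f hf => by rw [map_sub, h'.dual x f (hB hf), sub_self])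
  rw [map_sub, sub_eq_zero] at h1
  exact h1.symm

end Proj

end Pool.Agent.Helper755.WH
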